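import Mathlib
import Pool.Agent.H.MP_374efc_lc.Base

/-!
# MP_374efc_lc: the excess inequality (elementary form)

`X : ι → List α` are positive words which form a basis of the free group on `α` (`Θ` is bijective), `u i : List ι` are
words over `ι` with pairwise different first letters.  The words `r i = app X (u i)` over `α` have common initial parts; the
total weight of the overlaps is at most the weight of `X` minus the weight of the alphabet.

Method: for a letter `a`, the differences of the occurrences of `a` in `X` which are reached by two words `r i` with the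
same initial part are linearly independent: lift to the free module on the edges of the Cayley tree of the basis `X`.
-/

set_option autoImplicit false

namespace D0L.Exc

open Finsupp

variable {α ι : Type*}

/-- The group element of a word. -/
def gw (u : List α) : FreeGroup α := (u.map FreeGroup.of).prod

@[simp] theorem gw_nil : gw ([] : List α) = 1 := rfl

@[simp] theorem gw_append (x y : List α) : gw (x ++ y) = gw x * gw y := by
  simp [gw]

@[simp] theorem gw_cons (a : α) (x : List α) : gw (a :: x) = FreeGroup.of a * gw x := by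
  simp [gw]

theorem gw_eq_mk (x : List α) : gw x = FreeGroup.mk (x.map fun a => (a, true)) := by
  induction x with
  | nil => rfl
  | cons a x ih =>
    rw [gw_cons, ih, FreeGroup.of, FreeGroup.mul_mk]
    rfl

/-- Different words give different elements. -/
theorem gw_inj : Function.Injective (gw (α := α)) := by
  classical
  have key : ∀ x : List α, FreeGroup.reduce (x.map fun a => (a, true)) =
      x.map fun a => (a, true) := by
    intro x
    induction x with
    | nil => rfl
    | cons a x ih =>
      rw [List.map_cons, FreeGroup.reduce.cons, ih]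
      cases x with
      | nil => rfl
      | cons b x => simp
  intro x y hxy
  rw [gw_eq_mk, gw_eq_mk] at hxy
  have h1 := congrArg FreeGroup.toWord hxy
  rw [FreeGroup.toWord_mk, FreeGroup.toWord_mk, key, key] at h1
  exact List.map_injective_iff.2 (fun a b hab => (Prod.mk.inj hab).1) h1

/-! ## The tree of the basis of letters: the boundary map is injective -/

/-- Edges of the Cayley tree: `(g, x)` goes from `g` to `g x`. -/
abbrev Ed (ι α : Type*) := (FreeGroup α × ι) →₀ ℚ

/-- Vertices. -/
abbrev Ve (α : Type*) := FreeGroup α →₀ ℚ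

/-- Translation of the edges. -/
noncomputable def tr (g : FreeGroup ι) : Ed ι ι ≃+ Ed ι ι :=
  Finsupp.domCongr ((Equiv.mulLeft g).prodCongr (Equiv.refl ι))

theorem tr_single (g h : FreeGroup ι) (x : ι) (c : ℚ) :
    tr g (single (h, x) c) = single (g * h, x) c := by
  simp [tr, Finsupp.domCongr]

theorem tr_mul (g h : FreeGroup ι) (m : Ed ι ι) : tr (g * h) m = tr g (tr h m) := by
  induction m using Finsupp.induction_linear with
  | zero => simp
  | add f g' hf hg => rw [map_add, map_add, map_add, hf, hg]
  | single p c =>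
    obtain ⟨k, x⟩ := p
    rw [tr_single, tr_single, tr_single, mul_assoc]

theorem tr_one (m : Ed ι ι) : tr 1 m = m := by
  induction m using Finsupp.induction_linear with
  | zero => simp
  | add f g' hf hg => rw [map_add, hf, hg]
  | single p c =>
    obtain ⟨k, x⟩ := p
    rw [tr_single, one_mul]

/-- The affine action of a generator. -/
noncomputable def aff (x : ι) : Equiv.Perm (Ed ι ι) :=
  (tr (FreeGroup.of x)).toEquiv.trans (Equiv.addLeft (single ((1 : FreeGroup ι), x) 1))

theorem aff_apply (x : ι) (m : Ed ι ι) : aff x m = single (1, x) 1 + tr (FreeGroup.of x) m := rfl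

/-- The affine action of the free group. -/
noncomputable def Aff : FreeGroup ι →* Equiv.Perm (Ed ι ι) := FreeGroup.lift aff

/-- The crossed homomorphism. -/
noncomputable def Dx (g : FreeGroup ι) : Ed ι ι := Aff g 0

theorem Aff_of (x : ι) (m : Ed ι ι) :
    Aff (FreeGroup.of x) m = single (1, x) 1 + tr (FreeGroup.of x) m := by
  rw [Aff, FreeGroup.lift_apply_of, aff_apply]

theorem Dx_of (x : ι) : Dx (FreeGroup.of x) = single ((1 : FreeGroup ι), x) 1 := by
  rw [Dx, Aff_of, _root_.map_zero, add_zero]

theorem Aff_apply (g : FreeGroup ι) (m : Ed ι ι) : Aff g m = Dx g + tr g m := by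
  induction g using FreeGroup.induction_on generalizing m with
  | C1 => simp [Dx, tr_one]
  | of x => rw [Aff_of, Dx_of]
  | inv_of x h =>
    have h0 : Dx (FreeGroup.of x) + tr (FreeGroup.of x) (Dx (FreeGroup.of x)⁻¹) = 0 := by
      rw [← h, Dx, ← Equiv.Perm.mul_apply, ← _root_.map_mul, mul_inv_cancel, _root_.map_one]
      rfl
    have h1 : Aff (FreeGroup.of x) (Dx (FreeGroup.of x)⁻¹ + tr (FreeGroup.of x)⁻¹ m) = m := by
      rw [h, _root_.map_add, ← tr_mul, mul_inv_cancel, tr_one, ← add_assoc, h0, zero_add]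
    have h2 : Aff (FreeGroup.of x)⁻¹ (Aff (FreeGroup.of x)
        (Dx (FreeGroup.of x)⁻¹ + tr (FreeGroup.of x)⁻¹ m)) = Aff (FreeGroup.of x)⁻¹ m := by
      rw [h1]
    rw [← Equiv.Perm.mul_apply, ← _root_.map_mul, inv_mul_cancel, _root_.map_one] at h2
    exact h2.symm
  | mul g h hg hh =>
    have h1 : Dx (g * h) = Dx g + tr g (Dx h) := by
      rw [Dx, _root_.map_mul, Equiv.Perm.mul_apply, ← Dx, hg]
    rw [_root_.map_mul, Equiv.Perm.mul_apply, hh, hg, h1, _root_.map_add, tr_mul, add_assoc]

theorem Dx_mul (g h : FreeGroup ι) : Dx (g * h) = Dx g + tr g (Dx h) := by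
  rw [Dx, _root_.map_mul, Equiv.Perm.mul_apply, ← Dx, Aff_apply]

/-- The boundary for a family of group elements `θ x`. -/
noncomputable def bd (θ : ι → FreeGroup α) : Ed ι α →ₗ[ℚ] Ve α :=
  Finsupp.lsum ℚ fun p => (LinearMap.toSpanSingleton ℚ (Ve α)
    (single (p.1 * θ p.2) 1 - single p.1 1))

theorem bd_single (θ : ι → FreeGroup α) (g : FreeGroup α) (x : ι) (c : ℚ) :
    bd θ (single (g, x) c) = c • (single (g * θ x) 1 - single g 1) := by
  simp [bd]

/-- **The boundary map of a basis of a subgroup is injective.** -/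
theorem bd_inj (Θ : FreeGroup ι →* FreeGroup α) (hi : Function.Injective Θ) :
    Function.Injective (bd fun x : ι => Θ (FreeGroup.of x)) := by
  classical
  -- representatives of the cosets
  let r : FreeGroup α → FreeGroup α := fun g => (QuotientGroup.mk g : FreeGroup α ⧸ Θ.range).out
  have hr : ∀ g, ∃ g', g = r g * Θ g' := by
    intro g
    have h1 : (QuotientGroup.mk (r g) : FreeGroup α ⧸ Θ.range) = QuotientGroup.mk g :=
      QuotientGroup.out_eq' _
    rw [QuotientGroup.eq] at h1
    obtain ⟨g', hg'⟩ := h1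
    exact ⟨g', by rw [hg', mul_inv_cancel_left]⟩
  choose s hs using hr
  have hr2 : ∀ (g : FreeGroup α) (k : FreeGroup ι), r (g * Θ k) = r g := by
    intro g k
    have h1 : (QuotientGroup.mk (g * Θ k) : FreeGroup α ⧸ Θ.range) = QuotientGroup.mk g := by
      rw [eq_comm, QuotientGroup.eq, inv_mul_cancel_left]
      exact ⟨k, rfl⟩
    change (QuotientGroup.mk (g * Θ k) : FreeGroup α ⧸ Θ.range).out = _
    rw [h1]
  have hs2 : ∀ (g : FreeGroup α) (k : FreeGroup ι), s (g * Θ k) = s g * k := by
    intro g k
    apply hi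
    have h1 := hs (g * Θ k)
    rw [hr2] at h1
    have h2 : r g * Θ (s (g * Θ k)) = r g * Θ (s g * k) := by
      rw [← h1, _root_.map_mul, ← mul_assoc, ← hs]
    exact mul_left_cancel h2
  let L : Ve α →ₗ[ℚ] Ed ι α := Finsupp.lsum ℚ fun g => LinearMap.toSpanSingleton ℚ (Ed ι α)
    (Finsupp.mapDomain (fun p : FreeGroup ι × ι => (r g * Θ p.1, p.2)) (Dx (s g)))
  have hL : ∀ (g : FreeGroup α) (c : ℚ), L (single g c) =
      c • Finsupp.mapDomain (fun p : FreeGroup ι × ι => (r g * Θ p.1, p.2)) (Dx (s g)) := by
    intro g c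
    simp [L]
  have hss : ∀ (g : FreeGroup α) (x : ι) (c : ℚ),
      L (bd (fun x : ι => Θ (FreeGroup.of x)) (single (g, x) c)) = single (g, x) c := by
    intro g x c
    rw [bd_single, _root_.map_smul, _root_.map_sub, hL, hL, hs2, hr2, Dx_mul, Dx_of, tr_single,
      mul_one, one_smul, one_smul, Finsupp.mapDomain_add, Finsupp.mapDomain_single,
      add_sub_cancel_left, Finsupp.smul_single, smul_eq_mul, mul_one, ← hs]
  have hid : ∀ m : Ed ι α, L (bd (fun x : ι => Θ (FreeGroup.of x)) m) = m := by
    intro m
    induction m using Finsupp.induction_linear with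
    | zero => simp
    | add f g hf hg => rw [_root_.map_add, _root_.map_add, hf, hg]
    | single p c =>
      obtain ⟨g, x⟩ := p
      exact hss g x c
  exact Function.LeftInverse.injective hid

/-! ## Paths -/

/-- The path from `g` with the steps `y`. -/
noncomputable def path (X : ι → List α) : FreeGroup α → List ι → Ed ι α
  | _, [] => 0
  | g, x :: y => single (g, x) 1 + path X (g * gw (X x)) y

theorem bd_path (X : ι → List α) (θ : ι → FreeGroup α) (hθ : ∀ x, θ x = gw (X x))
    (g : FreeGroup α) (y : List ι) :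
    bd θ (path X g y) = single (g * gw (app X y)) 1 - single g 1 := by
  induction y generalizing g with
  | nil => simp [path, app_nil]
  | cons x y ih =>
    rw [path, _root_.map_add, bd_single, ih, one_smul, app_cons, gw_append, hθ, ← mul_assoc]
    abel

/-- The value of a path at an edge. -/
theorem path_apply_eq_zero [DecidableEq ι] (X : ι → List α) (g g' : FreeGroup α) (x : ι)
    (y : List ι) (h : ∀ y1 x' y2, y = y1 ++ x' :: y2 → g * gw (app X y1) = g' → x' ≠ x) :
    path X g y (g', x) = 0 := by
  classical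
  induction y generalizing g with
  | nil => simp [path]
  | cons a y ih =>
    rw [path, Finsupp.add_apply, ih, add_zero, Finsupp.single_apply, if_neg]
    · intro hc
      obtain ⟨h1, h2⟩ := Prod.mk.inj hc
      exact h [] a y rfl (by simpa [app_nil] using h1) h2
    · intro y1 x' y2 he hg
      refine h (a :: y1) x' y2 (by rw [he]; rfl) ?_
      rw [app_cons, gw_append, ← mul_assoc]
      exact hg

theorem path_apply_self [DecidableEq ι] (X : ι → List α) (hX : ∀ x, X x ≠ []) (g : FreeGroup α)
    (x : ι) (y : List ι) : path X g (x :: y) (g, x) = 1 := by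
  classical
  rw [path, Finsupp.add_apply, Finsupp.single_eq_same, path_apply_eq_zero, add_zero]
  intro y1 x' y2 _ hg _
  have h1 : gw (X x ++ app X y1) = gw ([] : List α) := by
    rw [gw_append, gw_nil]
    have h2 : g * (gw (X x) * gw (app X y1)) = g * 1 := by
      rw [← mul_assoc, hg, mul_one]
    exact mul_left_cancel h2
  have h3 := gw_inj h1
  exact hX x (List.append_eq_nil_iff.1 h3).1

/-! ## Independence of the differences of occurrences -/

/-- **The differences are independent.** -/
theorem indep [DecidableEq ι] {Φ J : Type*} [Fintype Φ] [DecidableEq Φ] [Fintype J]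
    (X : ι → List α) (hX : ∀ x, X x ≠ []) (Θ : FreeGroup ι →* FreeGroup α)
    (hΘ : ∀ x, Θ (FreeGroup.of x) = gw (X x)) (hb : Function.Injective Θ)
    (v : J → List α) (h h' : J → ι) (Q Q' : J → List ι) (φ φ' : J → Φ) (e : Φ → FreeGroup α)
    (he : ∀ j, e (φ j) = (gw (v j))⁻¹ * gw (app X (h j :: Q j)))
    (he' : ∀ j, e (φ' j) = (gw (v j))⁻¹ * gw (app X (h' j :: Q' j)))
    (hd : ∀ j k, v j = v k → h j = h k → j = k)
    (hd' : ∀ j k, v j = v k → h' k ≠ h j) :
    LinearIndependent ℚ (fun j => (Pi.single (φ j) (1 : ℚ) - Pi.single (φ' j) 1 : Φ → ℚ)) := by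
  classical
  rw [Fintype.linearIndependent_iff]
  intro c hc
  by_contra hne
  push Not at hne
  obtain ⟨j0, hj0⟩ := hne
  -- the linear map to the vertices
  let E : (Φ → ℚ) →ₗ[ℚ] Ve α := Fintype.linearCombination ℚ (fun f => single (e f) (1 : ℚ))
  have hE : ∀ f : Φ, E (Pi.single f 1) = single (e f) (1 : ℚ) := by
    intro f
    simp [E]
  have hbd : ∀ j, bd (fun x : ι => Θ (FreeGroup.of x)) (path X (gw (v j))⁻¹ (h j :: Q j) -
      path X (gw (v j))⁻¹ (h' j :: Q' j)) = E (Pi.single (φ j) 1 - Pi.single (φ' j) 1) := by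
    intro j
    rw [_root_.map_sub, bd_path X _ hΘ, bd_path X _ hΘ, _root_.map_sub, hE, hE, he, he']
    abel
  have hω : ∑ j, c j • (path X (gw (v j))⁻¹ (h j :: Q j) - path X (gw (v j))⁻¹ (h' j :: Q' j))
      = 0 := by
    apply bd_inj Θ hb
    rw [_root_.map_sum, _root_.map_zero, ← _root_.map_zero E, ← hc, _root_.map_sum]
    refine Finset.sum_congr rfl fun j _ => ?_
    rw [_root_.map_smul, _root_.map_smul, hbd]
  -- the longest initial part
  obtain ⟨j, hj, hmax⟩ := Finset.exists_max_image (Finset.univ.filter fun j => c j ≠ 0)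
    (fun j => (v j).length) ⟨j0, by simp [hj0]⟩
  rw [Finset.mem_filter] at hj
  have hval := congrArg (fun m : Ed ι α => m ((gw (v j))⁻¹, h j)) hω
  simp only [Finsupp.coe_zero, Pi.zero_apply] at hval
  rw [Finsupp.finsetSum_apply] at hval
  -- the position
  have key : ∀ k, c k ≠ 0 → ∀ y1 : List ι, (gw (v k))⁻¹ * gw (app X y1) = (gw (v j))⁻¹ →
      y1 = [] ∧ v k = v j := by
    intro k hk y1 hy
    have h1 : gw (app X y1 ++ v j) = gw (v k) := by
      rw [gw_append]
      have h2 : gw (app X y1) = gw (v k) * (gw (v j))⁻¹ := by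
        rw [← hy, mul_inv_cancel_left]
      rw [h2, inv_mul_cancel_right]
    have h3 := gw_inj h1
    have h4 : (v k).length ≤ (v j).length := hmax k (by simp [hk])
    rw [← h3, List.length_append] at h4
    have h5 : app X y1 = [] := List.length_eq_zero_iff.1 (by omega)
    constructor
    · cases y1 with
      | nil => rfl
      | cons a t =>
        rw [app_cons, List.append_eq_nil_iff] at h5
        exact absurd h5.1 (hX a)
    · rw [← h3, h5, List.nil_append]
  rw [Finset.sum_eq_single j] at hval
  · rw [Finsupp.smul_apply, Finsupp.sub_apply, path_apply_self X hX,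
      path_apply_eq_zero X _ _ _ (h' j :: Q' j), sub_zero, smul_eq_mul, mul_one] at hval
    · exact hj.2 hval
    · intro y1 x' y2 hy hg
      obtain ⟨hy1, _⟩ := key j hj.2 y1 hg
      subst hy1
      rw [List.nil_append] at hy
      rw [← (List.cons.inj hy).1]
      exact hd' j j rfl
  · intro k _ hkj
    by_cases hk : c k = 0
    · rw [hk, zero_smul]
      rfl
    rw [Finsupp.smul_apply, Finsupp.sub_apply, path_apply_eq_zero X _ _ _ (h k :: Q k),
      path_apply_eq_zero X _ _ _ (h' k :: Q' k), sub_zero, smul_zero]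
    · intro y1 x' y2 hy hg
      obtain ⟨hy1, hv⟩ := key k hk y1 hg
      subst hy1
      rw [List.nil_append] at hy
      rw [← (List.cons.inj hy).1]
      exact hd' j k hv.symm
    · intro y1 x' y2 hy hg
      obtain ⟨hy1, hv⟩ := key k hk y1 hg
      subst hy1
      rw [List.nil_append] at hy
      rw [← (List.cons.inj hy).1]
      intro hc'
      exact hkj (hd k j hv hc')
  · intro hn
    exact absurd (Finset.mem_univ j) hn

/-- **Counting.** -/
theorem card_lt [DecidableEq ι] {Φ J : Type*} [Fintype Φ] [DecidableEq Φ] [Fintype J]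
    (X : ι → List α) (hX : ∀ x, X x ≠ []) (Θ : FreeGroup ι →* FreeGroup α)
    (hΘ : ∀ x, Θ (FreeGroup.of x) = gw (X x)) (hb : Function.Injective Θ)
    (v : J → List α) (h h' : J → ι) (Q Q' : J → List ι) (φ φ' : J → Φ) (e : Φ → FreeGroup α)
    (he : ∀ j, e (φ j) = (gw (v j))⁻¹ * gw (app X (h j :: Q j)))
    (he' : ∀ j, e (φ' j) = (gw (v j))⁻¹ * gw (app X (h' j :: Q' j)))
    (hd : ∀ j k, v j = v k → h j = h k → j = k)
    (hd' : ∀ j k, v j = v k → h' k ≠ h j) (φ0 : Φ) :
    Fintype.card J + 1 ≤ Fintype.card Φ := by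
  classical
  have hi := indep X hX Θ hΘ hb v h h' Q Q' φ φ' e he he' hd hd'
  have ho : LinearIndependent ℚ (fun o : Option J => (o.elim (Pi.single φ0 (1 : ℚ))
      (fun j => Pi.single (φ j) (1 : ℚ) - Pi.single (φ' j) 1) : Φ → ℚ)) := by
    rw [linearIndependent_option]
    refine ⟨hi, ?_⟩
    intro hm
    have hle : Submodule.span ℚ (Set.range ((fun o : Option J => (o.elim (Pi.single φ0 (1 : ℚ))
      (fun j => Pi.single (φ j) (1 : ℚ) - Pi.single (φ' j) 1) : Φ → ℚ)) ∘ some)) ≤
      LinearMap.ker (Fintype.linearCombination ℚ (fun _ : Φ => (1 : ℚ))) := by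
      rw [Submodule.span_le]
      rintro _ ⟨j, rfl⟩
      simp [LinearMap.mem_ker]
    have h1 := hle hm
    rw [LinearMap.mem_ker] at h1
    simp at h1
  have := ho.fintype_card_le_finrank
  rw [Fintype.card_option, Module.finrank_fintype_fun_eq_card] at this
  exact this

/-! ## Occurrences -/

theorem exists_split (X : ι → List α) (w : List ι) (m : ℕ) (hm : m < (app X w).length) :
    ∃ (y : List ι) (x : ι) (z : List ι) (l : ℕ), w = y ++ x :: z ∧ (app X y).length + l = m ∧
      l < (X x).length := by
  induction w generalizing m with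
  | nil => simp [app_nil] at hm
  | cons a w ih =>
    by_cases h : m < (X a).length
    · exact ⟨[], a, w, m, rfl, by simp [app_nil], h⟩
    · rw [app_cons, List.length_append] at hm
      obtain ⟨y, x, z, l, h1, h2, h3⟩ := ih (m - (X a).length) (by omega)
      refine ⟨a :: y, x, z, l, by rw [h1]; rfl, ?_, h3⟩
      rw [app_cons, List.length_append]
      omega

theorem occ_data (X : ι → List α) (w : List ι) (m : ℕ) (a : α) (hw : (app X w)[m]? = some a) :
    ∃ (h : ι) (Q : List ι) (x : ι) (l : Fin (X x).length), w.head? = some h ∧ (X x)[l] = a ∧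
      gw ((X x).drop l) = (gw ((app X w).take m))⁻¹ * gw (app X (h :: Q)) := by
  obtain ⟨hm, hma⟩ := List.getElem?_eq_some_iff.1 hw
  obtain ⟨y, x, z, l, h1, h2, h3⟩ := exists_split X w m hm
  have hne : y ++ [x] ≠ [] := by simp
  obtain ⟨h, Q, hQ⟩ := List.exists_cons_of_ne_nil hne
  have hw' : app X w = app X y ++ (X x ++ app X z) := by
    rw [h1, app_append, app_cons]
  refine ⟨h, Q, x, ⟨l, h3⟩, ?_, ?_, ?_⟩
  · have : w = (h :: Q) ++ z := by rw [← hQ, h1]; simp
    rw [this]
    rfl
  · have h4 : (app X w)[m]? = (X x)[l]? := by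
      rw [hw', List.getElem?_append_right (by omega), List.getElem?_append_left (by omega)]
      congr 1
      omega
    rw [hw] at h4
    obtain ⟨_, h5⟩ := List.getElem?_eq_some_iff.1 h4.symm
    exact h5
  · have h4 : (app X w).take m = app X y ++ (X x).take l := by
      rw [hw', List.take_append, List.take_of_length_le (by omega), ← h2]
      congr 1
      rw [Nat.add_sub_cancel_left, List.take_append, Nat.sub_eq_zero_of_le h3.le]
      simp
    rw [h4, ← hQ, app_append, gw_append, gw_append]
    have h5 : gw (app X [x]) = gw ((X x).take l) * gw ((X x).drop l) := by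
      rw [← gw_append, List.take_append_drop, app_singleton]
    rw [h5]
    group

theorem card_occ [DecidableEq α] (w : List α) (a : α) :
    Fintype.card {l : Fin w.length // w[l] = a} = w.count a := by
  have h1 : (List.finRange w.length).map (fun l => w[l]) = w := by
    simp
  have h2 : w.count a = ((List.finRange w.length).map (fun l => w[l])).count a := by rw [h1]
  rw [h2, List.count_eq_countP, List.countP_map, Fintype.card_subtype, List.countP_eq_length_filter]
  rfl

variable [Fintype ι] [DecidableEq ι] [DecidableEq α] {κ : Type*} [Fintype κ] [LinearOrder κ]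

/-- **The count for one letter.** -/
theorem letter_count (X : ι → List α) (hX : ∀ x, X x ≠ []) (Θ : FreeGroup ι →* FreeGroup α)
    (hΘ : ∀ x, Θ (FreeGroup.of x) = gw (X x)) (hb : Function.Injective Θ) (u : κ → List ι)
    (hh : ∀ i j, (u i).head? = (u j).head? → i = j) (a : α) (ha : ∃ x, a ∈ X x)
    (S : Finset (κ × ℕ)) (hS : ∀ p ∈ S, (app X (u p.1))[p.2]? = some a ∧
      ∃ i' < p.1, (app X (u i')).take (p.2 + 1) = (app X (u p.1)).take (p.2 + 1)) :
    S.card + 1 ≤ ∑ x, (X x).count a := by
  classical
  -- the least index with the same initial part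
  have hmin : ∀ p : S, ∃ i0 < p.1.1, (app X (u i0)).take (p.1.2 + 1) =
      (app X (u p.1.1)).take (p.1.2 + 1) ∧ ∀ i, (app X (u i)).take (p.1.2 + 1) =
      (app X (u p.1.1)).take (p.1.2 + 1) → i0 ≤ i := by
    intro p
    obtain ⟨i', hi', he'⟩ := (hS p.1 p.2).2
    let T := Finset.univ.filter fun i => (app X (u i)).take (p.1.2 + 1) =
      (app X (u p.1.1)).take (p.1.2 + 1)
    have hT : T.Nonempty := ⟨i', by simp [T, he']⟩
    refine ⟨T.min' hT, ?_, ?_, ?_⟩
    · exact lt_of_le_of_lt (T.min'_le i' (by simp [T, he'])) hi'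
    · have := T.min'_mem hT
      rw [Finset.mem_filter] at this
      exact this.2
    · intro i hi
      exact T.min'_le i (by simp [T, hi])
  choose i0 hlt heq hle using hmin
  have hget : ∀ p : S, (app X (u (i0 p)))[p.1.2]? = some a := by
    intro p
    have h1 : ((app X (u (i0 p))).take (p.1.2 + 1))[p.1.2]? =
        ((app X (u p.1.1)).take (p.1.2 + 1))[p.1.2]? := by rw [heq]
    rw [List.getElem?_take_of_lt (by omega), List.getElem?_take_of_lt (by omega)] at h1
    rw [h1]
    exact (hS p.1 p.2).1
  have hd1 := fun p : S => occ_data X (u p.1.1) p.1.2 a (hS p.1 p.2).1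
  have hd2 := fun p : S => occ_data X (u (i0 p)) p.1.2 a (hget p)
  choose h Q x l hh1 hx he using hd1
  choose h' Q' x' l' hh1' hx' he' using hd2
  have hpre : ∀ p : S, (app X (u (i0 p))).take p.1.2 = (app X (u p.1.1)).take p.1.2 := by
    intro p
    have h1 := congrArg (List.take p.1.2) (heq p)
    rw [List.take_take, List.take_take] at h1
    simpa using h1
  let Φ := Σ x : ι, {l : Fin (X x).length // (X x)[l] = a}
  have hlen : ∀ p : S, p.1.2 < (app X (u p.1.1)).length := fun p =>
    (List.getElem?_eq_some_iff.1 (hS p.1 p.2).1).1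
  have hvlen : ∀ p q : S, (app X (u p.1.1)).take p.1.2 = (app X (u q.1.1)).take q.1.2 →
      p.1.2 = q.1.2 := by
    intro p q hpq
    have := congrArg List.length hpq
    rw [List.length_take, List.length_take] at this
    have h1 := hlen p
    have h2 := hlen q
    omega
  have hcard : Fintype.card S + 1 ≤ Fintype.card Φ := by
    obtain ⟨x0, hx0⟩ := ha
    obtain ⟨l0, hl0, hl0'⟩ := List.getElem_of_mem hx0
    refine card_lt X hX Θ hΘ hb (fun p : S => (app X (u p.1.1)).take p.1.2) h h' Q Q'
      (fun p => (⟨x p, l p, hx p⟩ : Φ)) (fun p => (⟨x' p, l' p, hx' p⟩ : Φ))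
      (fun f => gw ((X f.1).drop f.2.1)) he ?_ ?_ ?_ ⟨x0, ⟨l0, hl0⟩, hl0'⟩
    · intro p
      rw [← hpre p]
      exact he' p
    · intro p q hpq hhq
      have h1 := hvlen p q hpq
      have h2 : p.1.1 = q.1.1 := hh _ _ (by rw [hh1 p, hh1 q, hhq])
      exact Subtype.ext (Prod.ext h2 h1)
    · intro p q hpq hhq
      have h1 := hvlen p q hpq
      have h2 : i0 q = p.1.1 := hh _ _ (by rw [hh1' q, hh1 p, hhq])
      obtain ⟨i', hi', hei'⟩ := (hS p.1 p.2).2
      -- the initial parts with the letter agree
      have h3 : (app X (u p.1.1)).take (p.1.2 + 1) = (app X (u q.1.1)).take (q.1.2 + 1) := by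
        rw [List.take_add_one, List.take_add_one, hpq, (hS p.1 p.2).1, (hS q.1 q.2).1]
      have h4 : i0 q ≤ i' := by
        apply hle
        rw [← h3, ← h1]
        exact hei'
      rw [h2] at h4
      exact absurd hi' (not_lt.2 h4)
  rw [Fintype.card_coe, Fintype.card_sigma] at hcard
  refine hcard.trans (le_of_eq ?_)
  exact Finset.sum_congr rfl fun x _ => card_occ (X x) a

/-! ## The inequality -/

/-- The weight of a word. -/
def wt (ℓ : α → ℝ) (w : List α) : ℝ := (w.map ℓ).sum

omit [DecidableEq ι] [Fintype ι] in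
theorem wt_eq [Fintype α] (ℓ : α → ℝ) (w : List α) : wt ℓ w = ∑ a, ℓ a * (w.count a : ℝ) := by
  induction w with
  | nil => simp [wt]
  | cons b w ih =>
    have h1 : wt ℓ (b :: w) = ℓ b + wt ℓ w := by simp [wt]
    have h2 : ∀ a, ((b :: w).count a : ℝ) = (w.count a : ℝ) + if a = b then 1 else 0 := by
      intro a
      rw [List.count_cons]
      by_cases h : b = a
      · subst h; simp
      · simp [h, Ne.symm h]
    rw [h1, ih]
    simp_rw [h2, mul_add, Finset.sum_add_distrib]
    simp
    ring

theorem card_filter_range (w : List α) (a : α) :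
    ((Finset.range w.length).filter fun m => w[m]? = some a).card = w.count a := by
  have h1 : (List.range w.length).map (fun m => w[m]?) = w.map some := by
    apply List.ext_getElem
    · simp
    · intro i h1 h2
      simp at h1
      simp [h1]
  have h2 : (w.map some).count (some a) = w.count a :=
    List.count_map_of_injective w some (Option.some_injective _) a
  have h3 : (Finset.range w.length).filter (fun m => w[m]? = some a) =
      ((List.range w.length).filter ((fun x => x == some a) ∘ fun m => w[m]?)).toFinset := by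
    ext m
    simp
  rw [← h2, ← h1, List.count_eq_countP, List.countP_map, List.countP_eq_length_filter, h3,
    List.toFinset_card_of_nodup (List.nodup_range.filter _)]

omit [DecidableEq ι] [Fintype ι] in
/-- Every letter occurs. -/
theorem occurs (X : ι → List α) (Θ : FreeGroup ι →* FreeGroup α)
    (hΘ : ∀ x, Θ (FreeGroup.of x) = gw (X x)) (hs : Function.Surjective Θ) (a : α) :
    ∃ x, a ∈ X x := by
  by_contra hc
  push Not at hc
  let χ : FreeGroup α →* Multiplicative ℤ :=
    FreeGroup.lift fun b => Multiplicative.ofAdd (if b = a then (1 : ℤ) else 0)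
  have h1 : ∀ w : List α, a ∉ w → χ (gw w) = 1 := by
    intro w
    induction w with
    | nil => intro _; rw [gw_nil, _root_.map_one]
    | cons b w ih =>
      intro hw
      rw [List.mem_cons, not_or] at hw
      rw [gw_cons, _root_.map_mul, ih hw.2, FreeGroup.lift_apply_of, if_neg (Ne.symm hw.1)]
      rfl
  have h2 : χ.comp Θ = 1 := by
    ext x
    rw [MonoidHom.comp_apply, hΘ, h1 _ (hc x)]
    rfl
  obtain ⟨g, hg⟩ := hs (FreeGroup.of a)
  have h3 : χ (Θ g) = 1 := by
    have := DFunLike.congr_fun h2 g
    exact this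
  rw [hg, FreeGroup.lift_apply_of, if_pos rfl] at h3
  have h4 := congrArg Multiplicative.toAdd h3
  simp at h4

/-- **The excess inequality.** `X` is a set of positive words which is a basis of a subgroup of the free group, each letter
occurs in `X`, `u i` are words over the index
alphabet with different first letters, `c i < i` for `i ∈ I` and `p i` is a common initial part of
`app X (u i)` and `app X (u (c i))`. The sum of the weights of the `p i` is at most the weight of
`X` minus the weight of the alphabet. -/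
theorem excess_inj [Fintype α] (X : ι → List α) (hX : ∀ x, X x ≠ [])
    (Θ : FreeGroup ι →* FreeGroup α) (hΘ : ∀ x, Θ (FreeGroup.of x) = gw (X x))
    (hb : Function.Injective Θ) (ho : ∀ a, ∃ x, a ∈ X x) (ℓ : α → ℝ) (hℓ : ∀ a, 0 ≤ ℓ a) (u : κ → List ι)
    (hh : ∀ i j, (u i).head? = (u j).head? → i = j) (I : Finset κ) (c : κ → κ)
    (hc : ∀ i ∈ I, c i < i) (p : κ → List α) (hp : ∀ i ∈ I, p i <+: app X (u i))
    (hp' : ∀ i ∈ I, p i <+: app X (u (c i))) :
    ∑ i ∈ I, wt ℓ (p i) ≤ ∑ x, wt ℓ (X x) - ∑ a, ℓ a := by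
  classical
  have hcount : ∀ a : α, (∑ i ∈ I, (p i).count a) + 1 ≤ ∑ x, (X x).count a := by
    intro a
    let S : Finset (κ × ℕ) := (I.sigma fun i => (Finset.range (p i).length).filter
      fun m => (p i)[m]? = some a).map (Equiv.sigmaEquivProd κ ℕ).toEmbedding
    have hcard : S.card = ∑ i ∈ I, (p i).count a := by
      rw [Finset.card_map, Finset.card_sigma]
      exact Finset.sum_congr rfl fun i _ => card_filter_range (p i) a
    rw [← hcard]
    refine letter_count X hX Θ hΘ hb u hh a (ho a) S ?_
    rintro ⟨i, m⟩ hq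
    simp only [S, Finset.mem_map_equiv, Finset.mem_sigma, Finset.mem_filter, Finset.mem_range] at hq
    obtain ⟨hi, hm, hma⟩ := hq
    change i ∈ I at hi
    change m < (p i).length at hm
    change (p i)[m]? = some a at hma
    obtain ⟨t, ht⟩ := hp i hi
    obtain ⟨t', ht'⟩ := hp' i hi
    refine ⟨?_, c i, hc i hi, ?_⟩
    · change (app X (u i))[m]? = some a
      rw [← ht, List.getElem?_append_left hm, hma]
    · change (app X (u (c i))).take (m + 1) = (app X (u i)).take (m + 1)
      rw [← ht, ← ht', List.take_append_of_le_length (by omega),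
        List.take_append_of_le_length (by omega)]
  have h1 : ∑ i ∈ I, wt ℓ (p i) = ∑ a, ℓ a * ((∑ i ∈ I, (p i).count a : ℕ) : ℝ) := by
    simp_rw [wt_eq]
    rw [Finset.sum_comm]
    refine Finset.sum_congr rfl fun a _ => ?_
    rw [Nat.cast_sum, Finset.mul_sum]
  have h2 : ∑ x, wt ℓ (X x) = ∑ a, ℓ a * ((∑ x, (X x).count a : ℕ) : ℝ) := by
    simp_rw [wt_eq]
    rw [Finset.sum_comm]
    refine Finset.sum_congr rfl fun a _ => ?_
    rw [Nat.cast_sum, Finset.mul_sum]
  rw [h1, h2, ← Finset.sum_sub_distrib]
  refine Finset.sum_le_sum fun a _ => ?_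
  have h3 : (((∑ i ∈ I, (p i).count a : ℕ) : ℝ) + 1) ≤ ((∑ x, (X x).count a : ℕ) : ℝ) := by
    exact_mod_cast hcount a
  nlinarith [hℓ a]

/-- **The excess inequality**, for a basis of the free group. -/
theorem excess [Fintype α] (X : ι → List α) (hX : ∀ x, X x ≠ [])
    (Θ : FreeGroup ι →* FreeGroup α) (hΘ : ∀ x, Θ (FreeGroup.of x) = gw (X x))
    (hb : Function.Bijective Θ) (ℓ : α → ℝ) (hℓ : ∀ a, 0 ≤ ℓ a) (u : κ → List ι)
    (hh : ∀ i j, (u i).head? = (u j).head? → i = j) (I : Finset κ) (c : κ → κ)
    (hc : ∀ i ∈ I, c i < i) (p : κ → List α) (hp : ∀ i ∈ I, p i <+: app X (u i))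
    (hp' : ∀ i ∈ I, p i <+: app X (u (c i))) :
    ∑ i ∈ I, wt ℓ (p i) ≤ ∑ x, wt ℓ (X x) - ∑ a, ℓ a :=
  excess_inj X hX Θ hΘ hb.1 (occurs X Θ hΘ hb.2) ℓ hℓ u hh I c hc p hp hp'

end D0L.Exc
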