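import Mathlib
import Pool.Agent.H.MP_374efc_lc.Ex.ExcessE

/-!
# MP_374efc_lc: the two-sided excess inequality (elementary form)

As `excess`, with a second family: `s i : List ι` are words with pairwise different last letters and `q i` is a common
final part of `app X (s i)` and `app X (s (c' i))`.  The overlaps of both families together are bounded by the weight of
`X` minus the weight of the alphabet.
-/

set_option autoImplicit false

namespace D0L.Exc

open Finsupp

variable {α ι : Type*}

/-! ## The reversed basis -/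

/-- Inversion of the generators. -/
def Inv (α : Type*) : FreeGroup α →* FreeGroup α :=
  FreeGroup.lift fun a => (FreeGroup.of a)⁻¹

theorem Inv_of (a : α) : Inv α (FreeGroup.of a) = (FreeGroup.of a)⁻¹ := by
  rw [Inv, FreeGroup.lift_apply_of]

theorem Inv_Inv (g : FreeGroup α) : Inv α (Inv α g) = g := by
  have h : (Inv α).comp (Inv α) = MonoidHom.id _ := by
    ext a
    rw [MonoidHom.comp_apply, Inv_of, _root_.map_inv, Inv_of, inv_inv]
    rfl
  exact DFunLike.congr_fun h g

theorem Inv_bij : Function.Bijective (Inv α) :=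
  Function.Involutive.bijective Inv_Inv

theorem Inv_gw (u : List α) : Inv α (gw u) = (gw u.reverse)⁻¹ := by
  induction u with
  | nil => simp
  | cons a u ih =>
    rw [gw_cons, _root_.map_mul, ih, Inv_of, List.reverse_cons, gw_append, mul_inv_rev, gw_cons,
      gw_nil, mul_one]

/-- The reversed words. -/
def rv (X : ι → List α) (x : ι) : List α := (X x).reverse

theorem app_rv (X : ι → List α) (u : List ι) : app (rv X) u.reverse = (app X u).reverse := by
  induction u with
  | nil => simp [app_nil]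
  | cons a u ih =>
    rw [List.reverse_cons, app_append, ih, app_singleton, app_cons, List.reverse_append]
    rfl

theorem rv_basis (X : ι → List α) (Θ : FreeGroup ι →* FreeGroup α)
    (hΘ : ∀ x, Θ (FreeGroup.of x) = gw (X x)) (hb : Function.Injective Θ) :
    ∃ Θ' : FreeGroup ι →* FreeGroup α, (∀ x, Θ' (FreeGroup.of x) = gw (rv X x)) ∧
      Function.Injective Θ' := by
  refine ⟨(Inv α).comp (Θ.comp (Inv ι)), ?_, ?_⟩
  · intro x
    rw [MonoidHom.comp_apply, MonoidHom.comp_apply, Inv_of, _root_.map_inv, hΘ, _root_.map_inv,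
      Inv_gw, inv_inv]
    rfl
  · have h1 : (⇑((Inv α).comp (Θ.comp (Inv ι)))) = Inv α ∘ (Θ ∘ Inv ι) := rfl
    rw [h1]
    exact Inv_bij.1.comp (hb.comp Inv_bij.1)

/-! ## Independence, both sides -/

/-- **The coefficients of the outgoing differences vanish.** -/
theorem indep_out [DecidableEq ι] {Φ J J' : Type*} [Fintype Φ] [DecidableEq Φ] [Fintype J]
    [Fintype J'] (X : ι → List α) (hX : ∀ x, X x ≠ []) (Θ : FreeGroup ι →* FreeGroup α)
    (hΘ : ∀ x, Θ (FreeGroup.of x) = gw (X x)) (hb : Function.Injective Θ)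
    (d : Φ → List α) (hdne : ∀ f, d f ≠ [])
    (v : J → List α) (h h' : J → ι) (Q Q' : J → List ι) (φ φ' : J → Φ)
    (he : ∀ j, gw (d (φ j)) = (gw (v j))⁻¹ * gw (app X (h j :: Q j)))
    (he' : ∀ j, gw (d (φ' j)) = (gw (v j))⁻¹ * gw (app X (h' j :: Q' j)))
    (hd : ∀ j k, v j = v k → h j = h k → j = k)
    (hd' : ∀ j k, v j = v k → h' k ≠ h j)
    (ψ ψ' : J' → Φ) (R R' : J' → List ι)
    (hr : ∀ j, d (ψ j) ++ app X (R j) = d (ψ' j) ++ app X (R' j))
    (c : J → ℚ) (c' : J' → ℚ)
    (hc : ∑ j, c j • (Pi.single (φ j) (1 : ℚ) - Pi.single (φ' j) 1 : Φ → ℚ) +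
      ∑ j, c' j • (Pi.single (ψ j) (1 : ℚ) - Pi.single (ψ' j) 1 : Φ → ℚ) = 0) (j0 : J) :
    c j0 = 0 := by
  classical
  by_contra hj0
  let E : (Φ → ℚ) →ₗ[ℚ] Ve α := Fintype.linearCombination ℚ (fun f => single (gw (d f)) (1 : ℚ))
  have hE : ∀ f : Φ, E (Pi.single f 1) = single (gw (d f)) (1 : ℚ) := by
    intro f
    simp [E]
  have hbd : ∀ j, bd (fun x : ι => Θ (FreeGroup.of x)) (path X (gw (v j))⁻¹ (h j :: Q j) -
      path X (gw (v j))⁻¹ (h' j :: Q' j)) = E (Pi.single (φ j) 1 - Pi.single (φ' j) 1) := by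
    intro j
    rw [_root_.map_sub, bd_path X _ hΘ, bd_path X _ hΘ, _root_.map_sub, hE, hE, he, he']
    abel
  have hbd' : ∀ j, bd (fun x : ι => Θ (FreeGroup.of x)) (path X (gw (d (ψ' j))) (R' j) -
      path X (gw (d (ψ j))) (R j)) = E (Pi.single (ψ j) 1 - Pi.single (ψ' j) 1) := by
    intro j
    have h1 : gw (d (ψ' j)) * gw (app X (R' j)) = gw (d (ψ j)) * gw (app X (R j)) := by
      rw [← gw_append, ← gw_append, hr]
    rw [_root_.map_sub, bd_path X _ hΘ, bd_path X _ hΘ, _root_.map_sub, hE, hE, h1]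
    abel
  have hω : ∑ j, c j • (path X (gw (v j))⁻¹ (h j :: Q j) - path X (gw (v j))⁻¹ (h' j :: Q' j)) +
      ∑ j, c' j • (path X (gw (d (ψ' j))) (R' j) - path X (gw (d (ψ j))) (R j)) = 0 := by
    apply bd_inj Θ hb
    rw [_root_.map_add, _root_.map_sum, _root_.map_sum, _root_.map_zero, ← _root_.map_zero E, ← hc,
      _root_.map_add, _root_.map_sum, _root_.map_sum]
    congr 1
    · refine Finset.sum_congr rfl fun j _ => ?_
      rw [_root_.map_smul, _root_.map_smul, hbd]
    · refine Finset.sum_congr rfl fun j _ => ?_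
      rw [_root_.map_smul, _root_.map_smul, hbd']
  -- the longest initial part
  obtain ⟨j, hj, hmax⟩ := Finset.exists_max_image (Finset.univ.filter fun j => c j ≠ 0)
    (fun j => (v j).length) ⟨j0, by simp [hj0]⟩
  rw [Finset.mem_filter] at hj
  have hval := congrArg (fun m : Ed ι α => m ((gw (v j))⁻¹, h j)) hω
  simp only [Finsupp.coe_zero, Pi.zero_apply] at hval
  rw [Finsupp.add_apply, Finsupp.finsetSum_apply, Finsupp.finsetSum_apply] at hval
  -- the second family does not meet the edge
  have hz : ∀ (f : Φ) (y : List ι), path X (gw (d f)) y ((gw (v j))⁻¹, h j) = 0 := by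
    intro f y
    apply path_apply_eq_zero
    intro y1 x' y2 _ hg _
    have h1 : gw (d f ++ app X y1 ++ v j) = gw ([] : List α) := by
      rw [gw_append, gw_append, hg, inv_mul_cancel, gw_nil]
    have h2 := gw_inj h1
    rw [List.append_eq_nil_iff, List.append_eq_nil_iff] at h2
    exact hdne f h2.1.1
  rw [Finset.sum_eq_zero (s := (Finset.univ : Finset J')), add_zero] at hval
  swap
  · intro k _
    rw [Finsupp.smul_apply, Finsupp.sub_apply, hz, hz, sub_zero, smul_zero]
  -- the position
  have key : ∀ k, c k ≠ 0 → ∀ y1 : List ι, (gw (v k))⁻¹ * gw (app X y1) = (gw (v j))⁻¹ →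
      y1 = [] ∧ v k = v j := by
    intro k hk y1 hy
    have h1 : gw (app X y1 ++ v j) = gw (v k) := by
      rw [gw_append]
      have h2 : gw (app X y1) = gw (v k) * (gw (v j))⁻¹ := by
        rw [← hy, mul_inv_cancel_left]
      rw [h2, inv_mul_cancel_right]
    have h3 := gw_inj h1
    have h4 : (v k).length ≤ (v j).length := hmax k (by simp [hk])
    rw [← h3, List.length_append] at h4
    have h5 : app X y1 = [] := List.length_eq_zero_iff.1 (by omega)
    constructor
    · cases y1 with
      | nil => rfl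
      | cons a t =>
        rw [app_cons, List.append_eq_nil_iff] at h5
        exact absurd h5.1 (hX a)
    · rw [← h3, h5, List.nil_append]
  rw [Finset.sum_eq_single j] at hval
  · rw [Finsupp.smul_apply, Finsupp.sub_apply, path_apply_self X hX,
      path_apply_eq_zero X _ _ _ (h' j :: Q' j), sub_zero, smul_eq_mul, mul_one] at hval
    · exact hj.2 hval
    · intro y1 x' y2 hy hg
      obtain ⟨hy1, _⟩ := key j hj.2 y1 hg
      subst hy1
      rw [List.nil_append] at hy
      rw [← (List.cons.inj hy).1]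
      exact hd' j j rfl
  · intro k _ hkj
    by_cases hk : c k = 0
    · rw [hk, zero_smul]
      rfl
    rw [Finsupp.smul_apply, Finsupp.sub_apply, path_apply_eq_zero X _ _ _ (h k :: Q k),
      path_apply_eq_zero X _ _ _ (h' k :: Q' k), sub_zero, smul_zero]
    · intro y1 x' y2 hy hg
      obtain ⟨hy1, hv⟩ := key k hk y1 hg
      subst hy1
      rw [List.nil_append] at hy
      rw [← (List.cons.inj hy).1]
      exact hd' j k hv.symm
    · intro y1 x' y2 hy hg
      obtain ⟨hy1, hv⟩ := key k hk y1 hg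
      subst hy1
      rw [List.nil_append] at hy
      rw [← (List.cons.inj hy).1]
      intro hc'
      exact hkj (hd k j hv hc')
  · intro hn
    exact absurd (Finset.mem_univ j) hn

/-- **Counting, both sides.** -/
theorem card_lt2 [DecidableEq ι] {Φ J J' : Type*} [Fintype Φ] [DecidableEq Φ] [Fintype J]
    [Fintype J'] (X : ι → List α) (hX : ∀ x, X x ≠ []) (Θ : FreeGroup ι →* FreeGroup α)
    (hΘ : ∀ x, Θ (FreeGroup.of x) = gw (X x)) (hb : Function.Injective Θ)
    (d : Φ → List α) (hdne : ∀ f, d f ≠ [])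
    (v : J → List α) (h h' : J → ι) (Q Q' : J → List ι) (φ φ' : J → Φ)
    (he : ∀ j, gw (d (φ j)) = (gw (v j))⁻¹ * gw (app X (h j :: Q j)))
    (he' : ∀ j, gw (d (φ' j)) = (gw (v j))⁻¹ * gw (app X (h' j :: Q' j)))
    (hd : ∀ j k, v j = v k → h j = h k → j = k)
    (hd' : ∀ j k, v j = v k → h' k ≠ h j)
    (ψ ψ' : J' → Φ) (R R' : J' → List ι)
    (hr : ∀ j, d (ψ j) ++ app X (R j) = d (ψ' j) ++ app X (R' j))
    (v2 : J' → List α) (k k' : J' → ι) (S S' : J' → List ι) (e2 : Φ → FreeGroup α)
    (he2 : ∀ j, e2 (ψ j) = (gw (v2 j))⁻¹ * gw (app (rv X) (k j :: S j)))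
    (he2' : ∀ j, e2 (ψ' j) = (gw (v2 j))⁻¹ * gw (app (rv X) (k' j :: S' j)))
    (hd2 : ∀ i j, v2 i = v2 j → k i = k j → i = j)
    (hd2' : ∀ i j, v2 i = v2 j → k' j ≠ k i) (φ0 : Φ) :
    Fintype.card J + Fintype.card J' + 1 ≤ Fintype.card Φ := by
  classical
  have hX2 : ∀ x, rv X x ≠ [] := fun x hx => hX x (List.reverse_eq_nil_iff.1 hx)
  obtain ⟨Θ', hΘ', hb'⟩ := rv_basis X Θ hΘ hb
  have hi2 := indep (rv X) hX2 Θ' hΘ' hb' v2 k k' S S' ψ ψ' e2 he2 he2' hd2 hd2'
  have hi : LinearIndependent ℚ (fun o : J ⊕ J' => (Sum.elim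
      (fun j => (Pi.single (φ j) (1 : ℚ) - Pi.single (φ' j) 1 : Φ → ℚ))
      (fun j => (Pi.single (ψ j) (1 : ℚ) - Pi.single (ψ' j) 1 : Φ → ℚ)) o)) := by
    rw [Fintype.linearIndependent_iff]
    intro g hg
    rw [Fintype.sum_sum_type] at hg
    simp only [Sum.elim_inl, Sum.elim_inr] at hg
    have h1 : ∀ j, g (Sum.inl j) = 0 := fun j =>
      indep_out X hX Θ hΘ hb d hdne v h h' Q Q' φ φ' he he' hd hd' ψ ψ' R R' hr
        (fun j => g (Sum.inl j)) (fun j => g (Sum.inr j)) hg j
    have h2 : ∑ j, g (Sum.inr j) • (Pi.single (ψ j) (1 : ℚ) - Pi.single (ψ' j) 1 : Φ → ℚ) = 0 := by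
      simpa [h1] using hg
    have h3 := Fintype.linearIndependent_iff.1 hi2 (fun j => g (Sum.inr j)) h2
    rintro (j | j)
    · exact h1 j
    · exact h3 j
  have ho : LinearIndependent ℚ (fun o : Option (J ⊕ J') => (o.elim (Pi.single φ0 (1 : ℚ))
      (fun o => (Sum.elim (fun j => (Pi.single (φ j) (1 : ℚ) - Pi.single (φ' j) 1 : Φ → ℚ))
      (fun j => (Pi.single (ψ j) (1 : ℚ) - Pi.single (ψ' j) 1 : Φ → ℚ)) o)) : Φ → ℚ)) := by
    rw [linearIndependent_option]
    refine ⟨hi, ?_⟩
    intro hm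
    have hle : Submodule.span ℚ (Set.range ((fun o : Option (J ⊕ J') =>
      (o.elim (Pi.single φ0 (1 : ℚ))
      (fun o => (Sum.elim (fun j => (Pi.single (φ j) (1 : ℚ) - Pi.single (φ' j) 1 : Φ → ℚ))
      (fun j => (Pi.single (ψ j) (1 : ℚ) - Pi.single (ψ' j) 1 : Φ → ℚ)) o)) : Φ → ℚ)) ∘ some)) ≤
      LinearMap.ker (Fintype.linearCombination ℚ (fun _ : Φ => (1 : ℚ))) := by
      rw [Submodule.span_le]
      rintro _ ⟨(j | j), rfl⟩ <;> simp [LinearMap.mem_ker]
    have h1 := hle hm
    rw [LinearMap.mem_ker] at h1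
    simp at h1
  have := ho.fintype_card_le_finrank
  rw [Fintype.card_option, Fintype.card_sum, Module.finrank_fintype_fun_eq_card] at this
  exact this

/-! ## Occurrences, both sides -/

/-- The occurrence at the position `m` of `app X w`. -/
theorem occ_out (X : ι → List α) (w : List ι) (m : ℕ) (a : α) (hw : (app X w)[m]? = some a) :
    ∃ (h : ι) (Q : List ι) (x : ι) (l : Fin (X x).length), w.head? = some h ∧ (X x)[l] = a ∧
      gw ((X x).drop l) = (gw ((app X w).take m))⁻¹ * gw (app X (h :: Q)) :=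
  occ_data X w m a hw

/-- The occurrence at the position `m` from the end, described in the words `rv X` and in `X`. -/
theorem occ_in (X : ι → List α) (w : List ι) (m : ℕ) (a : α)
    (hw : (app (rv X) w)[m]? = some a) :
    ∃ (h : ι) (Q : List ι) (x : ι) (l : Fin (X x).length) (R : List ι), w.head? = some h ∧
      (X x)[l] = a ∧
      gw ((X x).take (l + 1)).reverse = (gw ((app (rv X) w).take m))⁻¹ * gw (app (rv X) (h :: Q)) ∧
      (X x).drop l ++ app X R = ((app (rv X) w).take (m + 1)).reverse := by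
  obtain ⟨hm, hma⟩ := List.getElem?_eq_some_iff.1 hw
  obtain ⟨y, x, z, l, h1, h2, h3⟩ := exists_split (rv X) w m hm
  have hne : y ++ [x] ≠ [] := by simp
  obtain ⟨h, Q, hQ⟩ := List.exists_cons_of_ne_nil hne
  have hw' : app (rv X) w = app (rv X) y ++ (rv X x ++ app (rv X) z) := by
    rw [h1, app_append, app_cons]
  have hlen : (rv X x).length = (X x).length := by simp [rv]
  have h3' : l < (X x).length := by rw [← hlen]; exact h3
  have hL : (X x).length - 1 - l < (X x).length := by omega
  have hget : (rv X x)[l]? = some a := by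
    have h4 : (app (rv X) w)[m]? = (rv X x)[l]? := by
      rw [hw', List.getElem?_append_right (by omega), List.getElem?_append_left (by omega)]
      congr 1
      omega
    rw [← h4, hw]
  have htake : (app (rv X) w).take (m + 1) = app (rv X) y ++ (rv X x).take (l + 1) := by
    rw [hw', List.take_append, List.take_of_length_le (by omega)]
    congr 1
    rw [List.take_append, Nat.sub_eq_zero_of_le (by omega : m + 1 - (app (rv X) y).length ≤
      (rv X x).length)]
    simp
    omega
  refine ⟨h, Q, x, ⟨(X x).length - 1 - l, hL⟩, y.reverse, ?_, ?_, ?_, ?_⟩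
  · have : w = (h :: Q) ++ z := by rw [← hQ, h1]; simp
    rw [this]
    rfl
  · rw [rv, List.getElem?_reverse h3'] at hget
    obtain ⟨_, h5⟩ := List.getElem?_eq_some_iff.1 hget
    exact h5
  · have h4 : (app (rv X) w).take m = app (rv X) y ++ (rv X x).take l := by
      rw [hw', List.take_append, List.take_of_length_le (by omega), ← h2]
      congr 1
      rw [Nat.add_sub_cancel_left, List.take_append, Nat.sub_eq_zero_of_le h3.le]
      simp
    rw [h4, ← hQ, app_append, gw_append, gw_append]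
    have h5 : gw (app (rv X) [x]) = gw ((rv X x).take l) * gw ((rv X x).drop l) := by
      rw [← gw_append, List.take_append_drop, app_singleton]
    have h6 : ((X x).take ((X x).length - 1 - l + 1)).reverse = (rv X x).drop l := by
      rw [rv, List.drop_reverse]
      congr 2
      omega
    rw [h5]
    change gw ((X x).take ((X x).length - 1 - l + 1)).reverse = _
    rw [h6]
    group
  · change (X x).drop ((X x).length - 1 - l) ++ app X y.reverse = _
    have h7 : app X y.reverse = (app (rv X) y).reverse := by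
      have := app_rv X y.reverse
      rw [List.reverse_reverse] at this
      rw [this, List.reverse_reverse]
    rw [htake, List.reverse_append, h7]
    congr 1
    rw [rv, List.take_reverse, List.reverse_reverse]
    congr 1
    omega

variable [Fintype ι] [DecidableEq ι] [DecidableEq α] {κ κ' : Type*} [Fintype κ] [LinearOrder κ]
  [Fintype κ'] [LinearOrder κ']

omit [Fintype ι] [DecidableEq ι] in
/-- The least index with the same initial part. -/
theorem least_index (X : ι → List α) (u : κ → List ι) (i : κ) (m : ℕ)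
    (h : ∃ i' < i, (app X (u i')).take (m + 1) = (app X (u i)).take (m + 1)) :
    ∃ i0 < i, (app X (u i0)).take (m + 1) = (app X (u i)).take (m + 1) ∧
      ∀ k, (app X (u k)).take (m + 1) = (app X (u i)).take (m + 1) → i0 ≤ k := by
  classical
  obtain ⟨i', hi', he'⟩ := h
  let T := Finset.univ.filter fun k => (app X (u k)).take (m + 1) = (app X (u i)).take (m + 1)
  have hT : T.Nonempty := ⟨i', by simp [T, he']⟩
  refine ⟨T.min' hT, ?_, ?_, ?_⟩
  · exact lt_of_le_of_lt (T.min'_le i' (by simp [T, he'])) hi'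
  · have := T.min'_mem hT
    rw [Finset.mem_filter] at this
    exact this.2
  · intro k hk
    exact T.min'_le k (by simp [T, hk])

omit [Fintype ι] [DecidableEq ι] [Fintype κ] [LinearOrder κ] in
theorem take_get {X : ι → List α} {u v : List ι} {m : ℕ} {a : α}
    (h : (app X u).take (m + 1) = (app X v).take (m + 1)) (hv : (app X v)[m]? = some a) :
    (app X u)[m]? = some a ∧ (app X u).take m = (app X v).take m := by
  constructor
  · have h1 : ((app X u).take (m + 1))[m]? = ((app X v).take (m + 1))[m]? := by rw [h]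
    rw [List.getElem?_take_of_lt (by omega), List.getElem?_take_of_lt (by omega)] at h1
    rw [h1, hv]
  · have h1 := congrArg (List.take m) h
    rw [List.take_take, List.take_take] at h1
    simpa using h1

/-- **The count for one letter, both sides.** -/
theorem letter_count2 (X : ι → List α) (hX : ∀ x, X x ≠ []) (Θ : FreeGroup ι →* FreeGroup α)
    (hΘ : ∀ x, Θ (FreeGroup.of x) = gw (X x)) (hb : Function.Injective Θ) (u : κ → List ι)
    (hh : ∀ i j, (u i).head? = (u j).head? → i = j) (u' : κ' → List ι)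
    (hh' : ∀ i j, (u' i).head? = (u' j).head? → i = j) (a : α) (ha : ∃ x, a ∈ X x)
    (S : Finset (κ × ℕ)) (hS : ∀ p ∈ S, (app X (u p.1))[p.2]? = some a ∧
      ∃ i' < p.1, (app X (u i')).take (p.2 + 1) = (app X (u p.1)).take (p.2 + 1))
    (S' : Finset (κ' × ℕ)) (hS' : ∀ p ∈ S', (app (rv X) (u' p.1))[p.2]? = some a ∧
      ∃ i' < p.1, (app (rv X) (u' i')).take (p.2 + 1) = (app (rv X) (u' p.1)).take (p.2 + 1)) :
    S.card + S'.card + 1 ≤ ∑ x, (X x).count a := by
  classical
  have hmin := fun p : S => least_index X u p.1.1 p.1.2 (hS p.1 p.2).2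
  choose i0 hlt heq hle using hmin
  have hmin' := fun p : S' => least_index (rv X) u' p.1.1 p.1.2 (hS' p.1 p.2).2
  choose i0' hlt' heq' hle' using hmin'
  have hget := fun p : S => take_get (heq p) (hS p.1 p.2).1
  have hget' := fun p : S' => take_get (heq' p) (hS' p.1 p.2).1
  have hd1 := fun p : S => occ_out X (u p.1.1) p.1.2 a (hS p.1 p.2).1
  have hd2 := fun p : S => occ_out X (u (i0 p)) p.1.2 a (hget p).1
  choose h Q x l hh1 hx he using hd1
  choose h' Q' x' l' hh1' hx' he' using hd2
  have hd3 := fun p : S' => occ_in X (u' p.1.1) p.1.2 a (hS' p.1 p.2).1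
  have hd4 := fun p : S' => occ_in X (u' (i0' p)) p.1.2 a (hget' p).1
  choose k T y r R hk1 hy hf hR using hd3
  choose k' T' y' r' R' hk1' hy' hf' hR' using hd4
  let Φ := Σ x : ι, {l : Fin (X x).length // (X x)[l] = a}
  have hlen : ∀ p : S, p.1.2 < (app X (u p.1.1)).length := fun p =>
    (List.getElem?_eq_some_iff.1 (hS p.1 p.2).1).1
  have hvlen : ∀ p q : S, (app X (u p.1.1)).take p.1.2 = (app X (u q.1.1)).take q.1.2 →
      p.1.2 = q.1.2 := by
    intro p q hpq
    have := congrArg List.length hpq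
    rw [List.length_take, List.length_take] at this
    have h1 := hlen p
    have h2 := hlen q
    omega
  have hlen' : ∀ p : S', p.1.2 < (app (rv X) (u' p.1.1)).length := fun p =>
    (List.getElem?_eq_some_iff.1 (hS' p.1 p.2).1).1
  have hvlen' : ∀ p q : S', (app (rv X) (u' p.1.1)).take p.1.2 =
      (app (rv X) (u' q.1.1)).take q.1.2 → p.1.2 = q.1.2 := by
    intro p q hpq
    have := congrArg List.length hpq
    rw [List.length_take, List.length_take] at this
    have h1 := hlen' p
    have h2 := hlen' q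
    omega
  have hcard : Fintype.card S + Fintype.card S' + 1 ≤ Fintype.card Φ := by
    obtain ⟨x0, hx0⟩ := ha
    obtain ⟨l0, hl0, hl0'⟩ := List.getElem_of_mem hx0
    refine card_lt2 X hX Θ hΘ hb (fun f : Φ => (X f.1).drop f.2.1) ?_
      (fun p : S => (app X (u p.1.1)).take p.1.2) h h' Q Q'
      (fun p => (⟨x p, l p, hx p⟩ : Φ)) (fun p => (⟨x' p, l' p, hx' p⟩ : Φ)) he ?_ ?_ ?_
      (fun p => (⟨y p, r p, hy p⟩ : Φ)) (fun p => (⟨y' p, r' p, hy' p⟩ : Φ)) R R' ?_
      (fun p : S' => (app (rv X) (u' p.1.1)).take p.1.2) k k' T T'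
      (fun f => gw ((X f.1).take (f.2.1 + 1)).reverse) hf ?_ ?_ ?_ ⟨x0, ⟨l0, hl0⟩, hl0'⟩
    · intro f hfd
      have h1 := congrArg List.length hfd
      have h2 := f.2.1.2
      simp at h1
      omega
    · intro p
      rw [← (hget p).2]
      exact he' p
    · intro p q hpq hhq
      have h1 := hvlen p q hpq
      have h2 : p.1.1 = q.1.1 := hh _ _ (by rw [hh1 p, hh1 q, hhq])
      exact Subtype.ext (Prod.ext h2 h1)
    · intro p q hpq hhq
      have h1 := hvlen p q hpq
      have h2 : i0 q = p.1.1 := hh _ _ (by rw [hh1' q, hh1 p, hhq])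
      obtain ⟨i', hi', hei'⟩ := (hS p.1 p.2).2
      have h3 : (app X (u p.1.1)).take (p.1.2 + 1) = (app X (u q.1.1)).take (q.1.2 + 1) := by
        rw [List.take_add_one, List.take_add_one, hpq, (hS p.1 p.2).1, (hS q.1 q.2).1]
      have h4 : i0 q ≤ i' := by
        apply hle
        rw [← h3, ← h1]
        exact hei'
      rw [h2] at h4
      exact absurd hi' (not_lt.2 h4)
    · intro p
      change (X (y p)).drop (r p) ++ app X (R p) = (X (y' p)).drop (r' p) ++ app X (R' p)
      rw [hR, hR', heq']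
    · intro p
      rw [← (hget' p).2]
      exact hf' p
    · intro p q hpq hhq
      have h1 := hvlen' p q hpq
      have h2 : p.1.1 = q.1.1 := hh' _ _ (by rw [hk1 p, hk1 q, hhq])
      exact Subtype.ext (Prod.ext h2 h1)
    · intro p q hpq hhq
      have h1 := hvlen' p q hpq
      have h2 : i0' q = p.1.1 := hh' _ _ (by rw [hk1' q, hk1 p, hhq])
      obtain ⟨i', hi', hei'⟩ := (hS' p.1 p.2).2
      have h3 : (app (rv X) (u' p.1.1)).take (p.1.2 + 1) =
          (app (rv X) (u' q.1.1)).take (q.1.2 + 1) := by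
        rw [List.take_add_one, List.take_add_one, hpq, (hS' p.1 p.2).1, (hS' q.1 q.2).1]
      have h4 : i0' q ≤ i' := by
        apply hle'
        rw [← h3, ← h1]
        exact hei'
      rw [h2] at h4
      exact absurd hi' (not_lt.2 h4)
  rw [Fintype.card_coe, Fintype.card_coe, Fintype.card_sigma] at hcard
  refine hcard.trans (le_of_eq ?_)
  exact Finset.sum_congr rfl fun x _ => card_occ (X x) a

/-- The finite set of the positions of a letter in a family of words. -/
theorem posSet (I : Finset κ) (p : κ → List α) (a : α) :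
    ∃ S : Finset (κ × ℕ), S.card = ∑ i ∈ I, (p i).count a ∧
      ∀ q ∈ S, q.1 ∈ I ∧ (p q.1)[q.2]? = some a := by
  classical
  refine ⟨(I.sigma fun i => (Finset.range (p i).length).filter
      fun m => (p i)[m]? = some a).map (Equiv.sigmaEquivProd κ ℕ).toEmbedding, ?_, ?_⟩
  · rw [Finset.card_map, Finset.card_sigma]
    exact Finset.sum_congr rfl fun i _ => card_filter_range (p i) a
  · rintro ⟨i, m⟩ hq
    simp only [Finset.mem_map_equiv, Finset.mem_sigma, Finset.mem_filter,
      Finset.mem_range] at hq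
    exact ⟨hq.1, hq.2.2⟩

omit [Fintype ι] [DecidableEq ι] [Fintype κ] in
theorem pos_ok (X : ι → List α) (u : κ → List ι) (I : Finset κ) (c : κ → κ)
    (hc : ∀ i ∈ I, c i < i) (p : κ → List α) (hp : ∀ i ∈ I, p i <+: app X (u i))
    (hp' : ∀ i ∈ I, p i <+: app X (u (c i))) (a : α) (q : κ × ℕ) (hq : q.1 ∈ I)
    (hqa : (p q.1)[q.2]? = some a) : (app X (u q.1))[q.2]? = some a ∧
      ∃ i' < q.1, (app X (u i')).take (q.2 + 1) = (app X (u q.1)).take (q.2 + 1) := by
  obtain ⟨i, m⟩ := q
  change i ∈ I at hq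
  change (p i)[m]? = some a at hqa
  have hm : m < (p i).length := (List.getElem?_eq_some_iff.1 hqa).1
  obtain ⟨t, ht⟩ := hp i hq
  obtain ⟨t', ht'⟩ := hp' i hq
  refine ⟨?_, c i, hc i hq, ?_⟩
  · change (app X (u i))[m]? = some a
    rw [← ht, List.getElem?_append_left hm, hqa]
  · change (app X (u (c i))).take (m + 1) = (app X (u i)).take (m + 1)
    rw [← ht, ← ht', List.take_append_of_le_length (by omega),
      List.take_append_of_le_length (by omega)]

omit [Fintype ι] [DecidableEq ι] [Fintype κ] in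
theorem sum_wt [Fintype α] {β : Type*} (s : Finset β) (ℓ : α → ℝ) (p : β → List α) :
    ∑ i ∈ s, wt ℓ (p i) = ∑ a, ℓ a * ((∑ i ∈ s, (p i).count a : ℕ) : ℝ) := by
  simp_rw [wt_eq]
  rw [Finset.sum_comm]
  refine Finset.sum_congr rfl fun a _ => ?_
  rw [Nat.cast_sum, Finset.mul_sum]

/-- **The excess inequality, both sides.** `X` is a set of positive words which
is a basis of a subgroup of the free group, each letter occurs in `X`; `u i` are words over
the index alphabet with different first letters, `c i < i` for `i ∈ I` and `p i` is a common initial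
part of `app X (u i)` and `app X (u (c i))`; `u' i` are words over the index alphabet with
different last letters, `c' i < i` for `i ∈ I'` and `p' i` is a common final part of
`app X (u' i)` and `app X (u' (c' i))`. The sum of the weights of the `p i` and of the `p' i` is at
most the weight of `X` minus the weight of the alphabet. -/
theorem excess2_inj [Fintype α] (X : ι → List α) (hX : ∀ x, X x ≠ [])
    (Θ : FreeGroup ι →* FreeGroup α) (hΘ : ∀ x, Θ (FreeGroup.of x) = gw (X x))
    (hb : Function.Injective Θ) (ho : ∀ a, ∃ x, a ∈ X x) (ℓ : α → ℝ) (hℓ : ∀ a, 0 ≤ ℓ a) (u : κ → List ι)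
    (hh : ∀ i j, (u i).head? = (u j).head? → i = j) (I : Finset κ) (c : κ → κ)
    (hc : ∀ i ∈ I, c i < i) (p : κ → List α) (hp : ∀ i ∈ I, p i <+: app X (u i))
    (hp' : ∀ i ∈ I, p i <+: app X (u (c i))) (u' : κ' → List ι)
    (hh' : ∀ i j, (u' i).getLast? = (u' j).getLast? → i = j) (I' : Finset κ') (c' : κ' → κ')
    (hc' : ∀ i ∈ I', c' i < i) (p' : κ' → List α) (hq : ∀ i ∈ I', p' i <:+ app X (u' i))
    (hq' : ∀ i ∈ I', p' i <:+ app X (u' (c' i))) :
    ∑ i ∈ I, wt ℓ (p i) + ∑ i ∈ I', wt ℓ (p' i) ≤ ∑ x, wt ℓ (X x) - ∑ a, ℓ a := by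
  classical
  have hcount : ∀ a : α, (∑ i ∈ I, (p i).count a) + (∑ i ∈ I', (p' i).reverse.count a) + 1 ≤
      ∑ x, (X x).count a := by
    intro a
    obtain ⟨S, hS1, hS2⟩ := posSet I p a
    obtain ⟨S', hS1', hS2'⟩ := posSet I' (fun i => (p' i).reverse) a
    rw [← hS1, ← hS1']
    refine letter_count2 X hX Θ hΘ hb u hh (fun i => (u' i).reverse) ?_ a
      (ho a) S ?_ S' ?_
    · intro i j hij
      rw [List.head?_reverse, List.head?_reverse] at hij
      exact hh' i j hij
    · intro q hqS
      exact pos_ok X u I c hc p hp hp' a q (hS2 q hqS).1 (hS2 q hqS).2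
    · intro q hqS
      refine pos_ok (rv X) (fun i => (u' i).reverse) I' c' hc' (fun i => (p' i).reverse) ?_ ?_ a q
        (hS2' q hqS).1 (hS2' q hqS).2
      · intro i hi
        rw [app_rv]
        exact List.reverse_prefix.2 (hq i hi)
      · intro i hi
        rw [app_rv]
        exact List.reverse_prefix.2 (hq' i hi)
  rw [sum_wt, sum_wt, sum_wt, ← Finset.sum_add_distrib, ← Finset.sum_sub_distrib]
  refine Finset.sum_le_sum fun a _ => ?_
  have h3 : (((∑ i ∈ I, (p i).count a : ℕ) : ℝ) + ((∑ i ∈ I', (p' i).count a : ℕ) : ℝ) + 1) ≤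
      ((∑ x, (X x).count a : ℕ) : ℝ) := by
    have h4 := hcount a
    simp only [List.count_reverse] at h4
    exact_mod_cast h4
  nlinarith [hℓ a]

/-- **The excess inequality, both sides**, for a basis of the free group. -/
theorem excess2 [Fintype α] (X : ι → List α) (hX : ∀ x, X x ≠ [])
    (Θ : FreeGroup ι →* FreeGroup α) (hΘ : ∀ x, Θ (FreeGroup.of x) = gw (X x))
    (hb : Function.Bijective Θ) (ℓ : α → ℝ) (hℓ : ∀ a, 0 ≤ ℓ a) (u : κ → List ι)
    (hh : ∀ i j, (u i).head? = (u j).head? → i = j) (I : Finset κ) (c : κ → κ)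
    (hc : ∀ i ∈ I, c i < i) (p : κ → List α) (hp : ∀ i ∈ I, p i <+: app X (u i))
    (hp' : ∀ i ∈ I, p i <+: app X (u (c i))) (u' : κ' → List ι)
    (hh' : ∀ i j, (u' i).getLast? = (u' j).getLast? → i = j) (I' : Finset κ') (c' : κ' → κ')
    (hc' : ∀ i ∈ I', c' i < i) (p' : κ' → List α) (hq : ∀ i ∈ I', p' i <:+ app X (u' i))
    (hq' : ∀ i ∈ I', p' i <:+ app X (u' (c' i))) :
    ∑ i ∈ I, wt ℓ (p i) + ∑ i ∈ I', wt ℓ (p' i) ≤ ∑ x, wt ℓ (X x) - ∑ a, ℓ a :=
  excess2_inj X hX Θ hΘ hb.1 (occurs X Θ hΘ hb.2) ℓ hℓ u hh I c hc p hp hp' u' hh' I' c' hc' p'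
    hq hq'

end D0L.Exc
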