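import Pool.Agent.H.MP_59b15d_al.h19s.Hopf
import Pool.Agent.H.MP_374efc_lc.Ex.ExcessE

/-!
# MP_374efc_lc: an endomorphism of a free group with nonsingular matrix is injective

`inj_of_det`: if the counts of the letters in the words `h a` form a nonsingular matrix, then the endomorphism of the
free group with `a ↦ h a` is injective.
-/

set_option autoImplicit false

namespace D0L.Exc

/-- The evaluation of additive functions on a free group. -/
noncomputable def Ev (X : Type*) : FreeGroup X →* Multiplicative ((X → ℚ) →ₗ[ℚ] ℚ) :=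
  FreeGroup.lift fun x => Multiplicative.ofAdd (LinearMap.proj x)

/-- The evaluation, as a linear form. -/
noncomputable def ev {X : Type*} (g : FreeGroup X) : (X → ℚ) →ₗ[ℚ] ℚ := Multiplicative.toAdd (Ev X g)

theorem ev_of {X : Type*} (x : X) (χ : X → ℚ) : ev (FreeGroup.of x) χ = χ x := by
  rw [ev, Ev, FreeGroup.lift_apply_of]
  rfl

theorem ev_one {X : Type*} : ev (1 : FreeGroup X) = 0 := by
  rw [ev, _root_.map_one]
  rfl

theorem ev_mul {X : Type*} (g k : FreeGroup X) : ev (g * k) = ev g + ev k := by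
  rw [ev, _root_.map_mul]
  rfl

/-- The pull back of functions. -/
noncomputable def pb {X Y : Type*} (ψ : FreeGroup X →* FreeGroup Y) : (Y → ℚ) →ₗ[ℚ] (X → ℚ) :=
  LinearMap.pi fun x => ev (ψ (FreeGroup.of x))

theorem pb_apply {X Y : Type*} (ψ : FreeGroup X →* FreeGroup Y) (χ : Y → ℚ) (x : X) :
    pb ψ χ x = ev (ψ (FreeGroup.of x)) χ := rfl

theorem ev_pb {X Y : Type*} (ψ : FreeGroup X →* FreeGroup Y) (χ : Y → ℚ) (g : FreeGroup X) :
    ev (ψ g) χ = ev g (pb ψ χ) := by
  induction g using FreeGroup.induction_on with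
  | C1 => rw [_root_.map_one, ev_one, ev_one]; rfl
  | of x => rw [ev_of, pb_apply]
  | inv_of x h =>
    have h1 : ∀ {Z : Type _} (k : FreeGroup Z) (η : Z → ℚ), ev k⁻¹ η = - ev k η := by
      intro Z k η
      have h2 : ev (k⁻¹ * k) η = 0 := by rw [inv_mul_cancel, ev_one]; rfl
      rw [ev_mul, LinearMap.add_apply] at h2
      linarith
    have h1' : ∀ {Z : Type _} (k : FreeGroup Z) (η : Z → ℚ), ev k⁻¹ η = - ev k η := by
      intro Z k η
      have h2 : ev (k⁻¹ * k) η = 0 := by rw [inv_mul_cancel, ev_one]; rfl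
      rw [ev_mul, LinearMap.add_apply] at h2
      linarith
    rw [_root_.map_inv, h1, h1', h]
  | mul g k hg hk => rw [_root_.map_mul, ev_mul, ev_mul, LinearMap.add_apply, LinearMap.add_apply,
      hg, hk]

theorem pb_comp {X Y Z : Type*} (ψ : FreeGroup X →* FreeGroup Y) (φ : FreeGroup Y →* FreeGroup Z)
    (χ : Z → ℚ) : pb (φ.comp ψ) χ = pb ψ (pb φ χ) := by
  funext x
  rw [pb_apply, MonoidHom.comp_apply, ev_pb, pb_apply]

theorem pb_inj {X Y : Type*} (ψ : FreeGroup X →* FreeGroup Y) (hψ : Function.Surjective ψ) :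
    Function.Injective (pb ψ) := by
  rw [← LinearMap.ker_eq_bot, LinearMap.ker_eq_bot']
  intro χ hχ
  funext y
  obtain ⟨g, hg⟩ := hψ (FreeGroup.of y)
  have h1 := ev_pb ψ χ g
  rw [hg, ev_of, hχ, _root_.map_zero] at h1
  exact h1

theorem finite_of_fd (B : Type*) [Module.Finite ℚ (B → ℚ)] : Finite B := by
  classical
  have h1 : LinearIndependent ℚ (fun b : B => (Pi.single b (1 : ℚ) : B → ℚ)) :=
    Pi.linearIndependent_single_one B ℚ
  exact h1.finite

/-- An endomorphism whose pull back is injective on the functions is injective. -/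
theorem inj_of_pb {n : ℕ} (θ : FreeGroup (Fin n) →* FreeGroup (Fin n))
    (hθ : Function.Injective (pb θ)) : Function.Injective θ := by
  classical
  let K : Subgroup (FreeGroup (Fin n)) := θ.range
  let B := IsFreeGroup.Generators K
  let e : K ≃* FreeGroup B := IsFreeGroup.toFreeGroup K
  let ψ : FreeGroup (Fin n) →* FreeGroup B := e.toMonoidHom.comp θ.rangeRestrict
  let φ : FreeGroup B →* FreeGroup (Fin n) := K.subtype.comp e.symm.toMonoidHom
  have hψ : Function.Surjective ψ := by
    have h1 := θ.rangeRestrict_surjective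
    have h2 := e.surjective
    change Function.Surjective (e ∘ θ.rangeRestrict)
    exact h2.comp h1
  have hc : φ.comp ψ = θ := by
    ext1 x
    change (K.subtype (e.symm (e (θ.rangeRestrict (FreeGroup.of x))))) = _
    rw [e.symm_apply_apply]
    rfl
  have h1 := pb_inj ψ hψ
  have h2 : Function.Surjective (pb ψ) := by
    have h3 : Function.Surjective (pb θ) := LinearMap.injective_iff_surjective.1 hθ
    intro χ
    obtain ⟨χ', hχ'⟩ := h3 χ
    refine ⟨pb φ χ', ?_⟩
    rw [← pb_comp, hc, hχ']
  let E : (B → ℚ) ≃ₗ[ℚ] (Fin n → ℚ) := LinearEquiv.ofBijective (pb ψ) ⟨h1, h2⟩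
  have hfd : Module.Finite ℚ (B → ℚ) := Module.Finite.equiv E.symm
  have hB : Finite B := finite_of_fd B
  have hcard : Nat.card (Fin n) = Nat.card B := by
    have := Fintype.ofFinite B
    have h3 := E.finrank_eq
    rw [Module.finrank_fintype_fun_eq_card, Module.finrank_fintype_fun_eq_card] at h3
    rw [Nat.card_eq_fintype_card, Nat.card_eq_fintype_card, h3]
  have h4 := Pool.MP_59b15d_al.H19S.hopf hcard ψ hψ
  intro x y hxy
  rw [← hc] at hxy
  apply h4
  apply e.symm.injective
  apply K.subtype_injective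
  exact hxy

/-- **Injectivity from the determinant.** -/
theorem inj_of_det {n : ℕ} (h : Fin n → List (Fin n)) (θ : FreeGroup (Fin n) →* FreeGroup (Fin n))
    (hθ : ∀ x, θ (FreeGroup.of x) = gw (h x))
    (hdet : (Matrix.of fun a c : Fin n => ((h c).count a : ℤ)).det ≠ 0) : Function.Injective θ := by
  classical
  apply inj_of_pb
  have hev : ∀ (u : List (Fin n)) (χ : Fin n → ℚ), ev (gw u) χ = ∑ a, χ a * (u.count a : ℚ) := by
    intro u χ
    induction u with
    | nil => rw [gw_nil, ev_one]; simp
    | cons b u ih =>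
      have h2 : ∀ a, ((b :: u).count a : ℚ) = (u.count a : ℚ) + if a = b then 1 else 0 := by
        intro a
        rw [List.count_cons]
        by_cases h : b = a
        · subst h; simp
        · simp [h, Ne.symm h]
      rw [gw_cons, ev_mul, LinearMap.add_apply, ih, ev_of]
      simp_rw [h2, mul_add, Finset.sum_add_distrib]
      simp
      ring
  let A : Matrix (Fin n) (Fin n) ℚ := Matrix.of fun a c : Fin n => ((h c).count a : ℚ)
  have hA : A.det ≠ 0 := by
    have h3 : A = (Matrix.of fun a c : Fin n => ((h c).count a : ℤ)).map (Int.castRingHom ℚ) := by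
      ext a c
      simp [A]
    rw [h3, ← RingHom.mapMatrix_apply, ← RingHom.map_det]
    simpa using hdet
  have hpb : ∀ χ, pb θ χ = Matrix.vecMul χ A := by
    intro χ
    funext x
    rw [pb_apply, hθ, hev]
    rfl
  intro χ χ' hχ
  rw [hpb, hpb] at hχ
  have hu : IsUnit A := (Matrix.isUnit_iff_isUnit_det A).2 (isUnit_iff_ne_zero.2 hA)
  exact Matrix.vecMul_injective_of_isUnit hu hχ

end D0L.Exc
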