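import Mathlib
import Pool.Agent.H.MP_374efc_lc.Ex.ExcessE

/-!
# MP_374efc_lc: the golden half lemma

If the first letters of the `n` words `w 0, ..., w (n-1)` are different, the last letters are different, the letter
counts are a basis of `ℤ ^ n` and not all the words are letters, then `(λ - 1) * ‖Σ‖ ≤ λ ^ (n-1) - 1`, where `‖Σ‖` is
the total length of the alphabet and `w i` has length `λ ^ i`.
-/

set_option autoImplicit false

namespace D0L.Exc

variable {n : ℕ}

theorem wt_nonneg {l : Fin n → ℝ} (hl : ∀ a, 0 < l a) (u : List (Fin n)) : 0 ≤ wt l u := by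
  induction u with
  | nil => simp [wt]
  | cons a u ih =>
    have : wt l (a :: u) = l a + wt l u := by simp [wt]
    rw [this]
    have := hl a
    linarith

theorem wt_append (l : Fin n → ℝ) (u v : List (Fin n)) : wt l (u ++ v) = wt l u + wt l v := by
  simp [wt]

theorem wt_cons (l : Fin n → ℝ) (a : Fin n) (v : List (Fin n)) : wt l (a :: v) = l a + wt l v := by
  simp [wt]

theorem wt_app {h : Fin n → List (Fin n)} {l : Fin n → ℝ} {lam : ℝ}
    (hext : ∀ a, wt l (h a) = lam * l a) (u : List (Fin n)) : wt l (app h u) = lam * wt l u := by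
  induction u with
  | nil => simp [wt, app_nil]
  | cons a u ih => rw [app_cons, wt_append, ih, hext, wt_cons]; ring

/-- Two different letters in a word. -/
theorem wt_ge_two {l : Fin n → ℝ} (hl : ∀ a, 0 < l a) (u : List (Fin n)) (a b : Fin n)
    (hab : a ≠ b) (p q : ℕ) (ha : p ≤ u.count a) (hb : q ≤ u.count b) :
    p * l a + q * l b ≤ wt l u := by
  rw [wt_eq]
  have h1 : ∑ c ∈ ({a, b} : Finset (Fin n)), l c * (u.count c : ℝ) ≤
      ∑ c, l c * (u.count c : ℝ) := by
    refine Finset.sum_le_sum_of_subset_of_nonneg (Finset.subset_univ _) fun c _ _ => ?_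
    have := hl c
    positivity
  rw [Finset.sum_pair hab] at h1
  have h2 : (p : ℝ) ≤ (u.count a : ℝ) := by exact_mod_cast ha
  have h3 : (q : ℝ) ≤ (u.count b : ℝ) := by exact_mod_cast hb
  have := hl a
  have := hl b
  nlinarith

/-- The first letter of an image. -/
theorem head_app {h : Fin n → List (Fin n)} (hne : ∀ a, h a ≠ []) {u : List (Fin n)} {a b : Fin n}
    (hu : u.head? = some a) (hb : (app h u).head? = some b) : (h a).head? = some b := by
  cases u with
  | nil => simp at hu
  | cons c u =>
    have hc : c = a := by simpa using hu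
    subst hc
    rw [app_cons, List.head?_append_of_ne_nil _ (hne c)] at hb
    exact hb

theorem last_app {h : Fin n → List (Fin n)} (hne : ∀ a, h a ≠ []) {u : List (Fin n)} {a b : Fin n}
    (hu : u.getLast? = some a) (hb : (app h u).getLast? = some b) : (h a).getLast? = some b := by
  obtain ⟨t, rfl⟩ : ∃ t, u = t ++ [a] := by
    rw [List.getLast?_eq_some_iff] at hu
    exact hu
  rw [app_append, app_singleton, List.getLast?_append_of_ne_nil _ (hne a)] at hb
  exact hb

theorem wt_ge_head {l : Fin n → ℝ} (hl : ∀ a, 0 < l a) {u : List (Fin n)} {a : Fin n}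
    (hu : u.head? = some a) : l a ≤ wt l u := by
  cases u with
  | nil => simp at hu
  | cons c u =>
    have hc : c = a := by simpa using hu
    subst hc
    rw [wt_cons]
    have := wt_nonneg hl u
    linarith

theorem wt_ge_last {l : Fin n → ℝ} (hl : ∀ a, 0 < l a) {u : List (Fin n)} {a : Fin n}
    (hu : u.getLast? = some a) : l a ≤ wt l u := by
  rw [List.getLast?_eq_some_iff] at hu
  obtain ⟨t, rfl⟩ := hu
  rw [wt_append]
  have h1 : wt l [a] = l a := by simp [wt]
  have := wt_nonneg hl t
  linarith

/-- The real inequality, first case. -/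
theorem real_A {x q A B L a b lam : ℝ} (hlam : 1 < lam) (hx : 0 < x) (hq : lam ≤ q)
    (hA : (lam - 1) * A = q - 1) (hB : 1 ≤ B) (hL : L = A + q * B) (hab : a + b ≤ x)
    (ha : x ≤ (1 + lam) * a) (hb : x ≤ (1 + lam) * b) :
    (lam + 1) * (a * A + b * B) ≤ x * L := by
  have hb' : b * B ≤ (x - a) * B := by nlinarith
  have h1 : (lam + 1) * (a * A + b * B) ≤ (lam + 1) * (a * (A - B)) + (lam + 1) * (x * B) := by
    nlinarith
  rcases le_total B A with h | h
  · have h2 : (lam + 1) * a ≤ lam * x := by nlinarith
    have h3 : (lam + 1) * a * (A - B) ≤ lam * x * (A - B) := by nlinarith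
    have h4 : lam * A + B ≤ L := by
      rw [hL]
      nlinarith
    have h5 : x * (lam * A + B) ≤ x * L := mul_le_mul_of_nonneg_left h4 hx.le
    nlinarith
  · have h3 : (lam + 1) * a * (A - B) ≤ x * (A - B) := by nlinarith
    have h4 : A + lam * B ≤ L := by
      rw [hL]
      nlinarith
    have h5 : x * (A + lam * B) ≤ x * L := mul_le_mul_of_nonneg_left h4 hx.le
    nlinarith

/-- The real inequality, second case. -/
theorem real_B {x q A B L a b lam : ℝ} (hlam : 1 < lam) (hx : 0 < x) (hq : lam ≤ q)
    (hA : (lam - 1) * A = q - 1) (hB : 1 ≤ B) (hL : L = A + q * B) (hab : 2 * a + b ≤ x)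
    (ha : x ≤ (1 + lam) * a) (hb : 0 ≤ b) :
    (lam + 1) * (a * A + b * B) ≤ x * L := by
  have hb' : b * B ≤ (x - 2 * a) * B := by nlinarith
  have h1 : (lam + 1) * (a * A + b * B) ≤
      (lam + 1) * (a * (A - 2 * B)) + (lam + 1) * (x * B) := by nlinarith
  rcases le_total (2 * B) A with h | h
  · have h2 : 2 * a ≤ x := by linarith
    have h3 : (lam + 1) * (a * (A - 2 * B)) ≤ (lam + 1) * (x / 2 * (A - 2 * B)) := by
      have : a * (A - 2 * B) ≤ x / 2 * (A - 2 * B) := by nlinarith
      nlinarith
    have h4 : (lam + 1) * (A / 2) ≤ L := by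
      rw [hL]
      nlinarith
    have h5 : x * ((lam + 1) * (A / 2)) ≤ x * L := mul_le_mul_of_nonneg_left h4 hx.le
    nlinarith
  · have h3 : (lam + 1) * a * (A - 2 * B) ≤ x * (A - 2 * B) := by nlinarith
    have h4 : A + (lam - 1) * B ≤ L := by
      rw [hL]
      nlinarith
    have h5 : x * (A + (lam - 1) * B) ≤ x * L := mul_le_mul_of_nonneg_left h4 hx.le
    nlinarith

/-! ## The combinatorial part -/

theorem head_app_eq {h : Fin n → List (Fin n)} (hne : ∀ a, h a ≠ []) {u : List (Fin n)}
    {a : Fin n} (hu : u.head? = some a) : (app h u).head? = (h a).head? := by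
  cases u with
  | nil => simp at hu
  | cons c u =>
    have hc : c = a := by simpa using hu
    subst hc
    rw [app_cons, List.head?_append_of_ne_nil _ (hne c)]

theorem last_app_eq {h : Fin n → List (Fin n)} (hne : ∀ a, h a ≠ []) {u : List (Fin n)}
    {a : Fin n} (hu : u.getLast? = some a) : (app h u).getLast? = (h a).getLast? := by
  rw [List.getLast?_eq_some_iff] at hu
  obtain ⟨t, rfl⟩ := hu
  rw [app_append, app_singleton, List.getLast?_append_of_ne_nil _ (hne a)]

section

variable {h : Fin n → List (Fin n)} {w : ℕ → List (Fin n)} {l : Fin n → ℝ} {lam : ℝ}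
  {f g : ℕ → Fin n}

theorem wt_w (hw : ∀ i, w (i + 1) = app h (w i)) (hext : ∀ a, wt l (h a) = lam * l a)
    (h0 : wt l (w 0) = 1) (i : ℕ) : wt l (w i) = lam ^ i := by
  induction i with
  | zero => rw [h0, pow_zero]
  | succ i ih => rw [hw, wt_app hext, ih, pow_succ, mul_comm]

/-- The growth of the first letters. -/
theorem growth_head (hne : ∀ a, h a ≠ []) (hw : ∀ i, w (i + 1) = app h (w i)) (hl : ∀ a, 0 < l a)
    (hext : ∀ a, wt l (h a) = lam * l a) (hf : ∀ i < n, (w i).head? = some (f i)) (i m : ℕ)
    (hm : i + m < n) : l (f (i + m)) ≤ lam ^ m * l (f i) := by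
  have key : ∀ m, i + m < n → ∃ u : List (Fin n), u.head? = some (f (i + m)) ∧
      wt l u = lam ^ m * l (f i) := by
    intro m
    induction m with
    | zero => intro _; exact ⟨[f i], rfl, by simp [wt]⟩
    | succ m ih =>
      intro hm
      obtain ⟨u, h1, h2⟩ := ih (by omega)
      refine ⟨app h u, ?_, ?_⟩
      · rw [head_app_eq hne h1]
        have h3 := hf (i + m) (by omega)
        have h4 := hf (i + m + 1) (by omega)
        rw [hw] at h4
        exact head_app hne h3 h4
      · rw [wt_app hext, h2, pow_succ]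
        ring
  obtain ⟨u, h1, h2⟩ := key m hm
  rw [← h2]
  exact wt_ge_head hl h1

theorem growth_last (hne : ∀ a, h a ≠ []) (hw : ∀ i, w (i + 1) = app h (w i)) (hl : ∀ a, 0 < l a)
    (hext : ∀ a, wt l (h a) = lam * l a) (hg : ∀ i < n, (w i).getLast? = some (g i)) (i m : ℕ)
    (hm : i + m < n) : l (g (i + m)) ≤ lam ^ m * l (g i) := by
  have key : ∀ m, i + m < n → ∃ u : List (Fin n), u.getLast? = some (g (i + m)) ∧
      wt l u = lam ^ m * l (g i) := by
    intro m
    induction m with
    | zero => intro _; exact ⟨[g i], rfl, by simp [wt]⟩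
    | succ m ih =>
      intro hm
      obtain ⟨u, h1, h2⟩ := ih (by omega)
      refine ⟨app h u, ?_, ?_⟩
      · rw [last_app_eq hne h1]
        have h3 := hg (i + m) (by omega)
        have h4 := hg (i + m + 1) (by omega)
        rw [hw] at h4
        exact last_app hne h3 h4
      · rw [wt_app hext, h2, pow_succ]
        ring
  obtain ⟨u, h1, h2⟩ := key m hm
  rw [← h2]
  exact wt_ge_last hl h1

theorem sum_letters (f : ℕ → Fin n) (finj : ∀ i < n, ∀ j < n, f i = f j → i = j) (l : Fin n → ℝ) :
    ∑ i ∈ Finset.range n, l (f i) = ∑ a, l a := by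
  have hinj : Function.Injective (fun i : Fin n => f i) := by
    intro i j hij
    exact Fin.ext (finj i i.2 j j.2 hij)
  have hb : Function.Bijective (fun i : Fin n => f i) :=
    ⟨hinj, Finite.surjective_of_injective hinj⟩
  rw [← Fin.sum_univ_eq_sum_range (fun i => l (f i)) n]
  exact Function.Bijective.sum_comp hb l

theorem surj_letters (f : ℕ → Fin n) (finj : ∀ i < n, ∀ j < n, f i = f j → i = j) (a : Fin n) :
    ∃ i < n, f i = a := by
  have hinj : Function.Injective (fun i : Fin n => f i) := by
    intro i j hij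
    exact Fin.ext (finj i i.2 j j.2 hij)
  obtain ⟨i, hi⟩ := Finite.surjective_of_injective hinj a
  exact ⟨i, i.2, hi⟩

theorem sum_geo_le {F : ℕ → ℝ} {k m : ℕ} (hF : ∀ i < m, F (k + i) ≤ lam ^ i * F k) :
    ∑ i ∈ Finset.range m, F (k + i) ≤ F k * ∑ i ∈ Finset.range m, lam ^ i := by
  rw [Finset.mul_sum]
  refine Finset.sum_le_sum fun i hi => ?_
  rw [mul_comm]
  exact hF i (Finset.mem_range.1 hi)

/-- **The golden half lemma.** -/
theorem golden (hne : ∀ a, h a ≠ []) (hl : ∀ a, 0 < l a) (hlam : 1 < lam)
    (hext : ∀ a, wt l (h a) = lam * l a) (hw : ∀ i, w (i + 1) = app h (w i))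
    (h0 : wt l (w 0) = 1) (hf : ∀ i < n, (w i).head? = some (f i))
    (hg : ∀ i < n, (w i).getLast? = some (g i))
    (finj : ∀ i < n, ∀ j < n, f i = f j → i = j) (ginj : ∀ i < n, ∀ j < n, g i = g j → i = j)
    (hB : ∀ k < n, ∃ u : Fin n → ℤ, ∀ i < n,
      ∑ a, ((w i).count a : ℤ) * u a = if i = k then 1 else 0)
    (hex : ∃ i < n, (w i).length ≠ 1) :
    (lam - 1) * ∑ a, l a ≤ lam ^ (n - 1) - 1 := by
  classical
  obtain ⟨k, ⟨hkn, hk1⟩, hkmin⟩ : ∃ k, (k < n ∧ (w k).length ≠ 1) ∧
      ∀ i < k, ¬ (i < n ∧ (w i).length ≠ 1) :=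
    ⟨Nat.find hex, Nat.find_spec hex, fun i hi => Nat.find_min hex hi⟩
  have hlet : ∀ i < k, w i = [f i] := by
    intro i hi
    have h1 : (w i).length = 1 := by
      by_contra hc
      exact hkmin i hi ⟨by omega, hc⟩
    obtain ⟨a, ha⟩ := List.length_eq_one_iff.1 h1
    have h2 := hf i (by omega)
    rw [ha] at h2 ⊢
    simp at h2
    rw [h2]
  have hgf : ∀ i < k, g i = f i := by
    intro i hi
    have h2 := hg i (by omega)
    rw [hlet i hi] at h2
    simpa using h2.symm
  have hlk : 2 ≤ (w k).length := by
    have h2 := hf k hkn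
    rcases h3 : w k with _ | ⟨a, t⟩
    · rw [h3] at h2; simp at h2
    · rw [h3] at hk1
      simp only [List.length_cons] at hk1 ⊢
      omega
  -- the decomposition of `w k`
  obtain ⟨t, ht⟩ : ∃ t, w k = f k :: t := by
    have h2 := hf k hkn
    rcases h3 : w k with _ | ⟨a, t⟩
    · rw [h3] at h2; simp at h2
    · rw [h3] at h2
      have : a = f k := by simpa using h2
      exact ⟨t, by rw [this]⟩
  have htne : t ≠ [] := by
    rintro rfl
    rw [ht] at hlk
    simp at hlk
  have htlast : t.getLast? = some (g k) := by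
    have h2 := hg k hkn
    rw [ht, List.getLast?_cons_of_ne_nil htne] at h2
    exact h2
  have hgmem : g k ∈ t := List.mem_of_getLast? htlast
  have hwk : wt l (w k) = lam ^ k := wt_w hw hext h0 k
  -- the sums
  have hT := sum_letters f finj l
  have hT' := sum_letters g ginj l
  set T := ∑ a, l a with hTdef
  have hFk : ∀ i < k, l (f i) = lam ^ i := by
    intro i hi
    rw [← wt_w hw hext h0 i, hlet i hi]
    simp [wt]
  set S := ∑ i ∈ Finset.range (n - k), l (f (k + i)) with hS
  have hsplit : T = ∑ i ∈ Finset.range k, lam ^ i + S := by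
    have h1 : ∑ i ∈ Finset.range n, l (f i) = ∑ i ∈ Finset.range k, l (f i) +
        ∑ i ∈ Finset.range (n - k), l (f (k + i)) := by
      rw [← Finset.sum_range_add]
      congr 2
      omega
    rw [← hT, h1, hS]
    congr 1
    exact Finset.sum_congr rfl fun i hi => hFk i (Finset.mem_range.1 hi)
  have hS' : S = ∑ i ∈ Finset.range (n - k), l (g (k + i)) := by
    have h1 : T = ∑ i ∈ Finset.range k, lam ^ i +
        ∑ i ∈ Finset.range (n - k), l (g (k + i)) := by
      have h1 : ∑ i ∈ Finset.range n, l (g i) = ∑ i ∈ Finset.range k, l (g i) +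
          ∑ i ∈ Finset.range (n - k), l (g (k + i)) := by
        rw [← Finset.sum_range_add]
        congr 2
        omega
      rw [← hT', h1]
      congr 1
      refine Finset.sum_congr rfl fun i hi => ?_
      have h2 := Finset.mem_range.1 hi
      rw [hgf i h2]
      exact hFk i h2
    linarith
  have gF : ∀ i m, i + m < n → l (f (i + m)) ≤ lam ^ m * l (f i) := fun i m hm =>
    growth_head hne hw hl hext hf i m hm
  have gG : ∀ i m, i + m < n → l (g (i + m)) ≤ lam ^ m * l (g i) := fun i m hm =>
    growth_last hne hw hl hext hg i m hm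
  have geo : ∀ m, (lam - 1) * ∑ i ∈ Finset.range m, lam ^ i = lam ^ m - 1 := fun m =>
    mul_geom_sum lam m
  set L := ∑ i ∈ Finset.range (n - k), lam ^ i with hL
  have hSa : S ≤ l (f k) * L := sum_geo_le (F := fun i => l (f i)) fun i hi => gF k i (by omega)
  have hSb : S ≤ l (g k) * L := by
    rw [hS']
    exact sum_geo_le (F := fun i => l (g i)) fun i hi => gG k i (by omega)
  have hx : 0 < lam ^ k := pow_pos (by linarith) k
  have hLpos : 0 ≤ L := Finset.sum_nonneg fun i _ => pow_nonneg (by linarith) i
  -- the other letter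
  have hj : ∃ j, k < j ∧ j < n ∧ ((g k = f j ∧ l (f k) + l (f j) ≤ lam ^ k) ∨
      (2 * l (f k) + l (f j) ≤ lam ^ k)) := by
    by_cases hgk : g k = f k
    · -- two equal letters
      by_contra hno
      push Not at hno
      have hall : ∀ c ∈ w k, c ≠ f k → ∃ i < k, c = f i := by
        intro c hc hck
        obtain ⟨j, hjn, hj⟩ := surj_letters f finj c
        by_contra hcc
        push Not at hcc
        have hjk : k < j := by
          rcases lt_trichotomy j k with h1 | h1 | h1
          · exact absurd hj.symm (hcc j h1)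
          · subst h1; exact absurd hj.symm hck
          · exact h1
        have h2 := (hno j hjk hjn).2
        have hcount : 2 ≤ (w k).count (f k) := by
          rw [ht, List.count_cons_self]
          have : 0 < t.count (f k) := List.count_pos_iff.2 (hgk ▸ hgmem)
          omega
        have hcount2 : 1 ≤ (w k).count c := List.count_pos_iff.2 hc
        have h3 := wt_ge_two hl (w k) (f k) c (Ne.symm hck) 2 1 hcount hcount2
        rw [hwk, ← hj] at h3
        push_cast at h3
        linarith
      obtain ⟨u, hu⟩ := hB k hkn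
      have hu0 : ∀ i < k, u (f i) = 0 := by
        intro i hi
        have h1 := hu i (by omega)
        rw [hlet i hi, if_neg (by omega)] at h1
        have h2 : ∑ a, (([f i] : List (Fin n)).count a : ℤ) * u a = u (f i) := by
          rw [Finset.sum_eq_single (f i)]
          · simp
          · intro b _ hb
            rw [List.count_eq_zero_of_not_mem (by simpa using hb)]
            simp
          · intro hc; exact absurd (Finset.mem_univ _) hc
        rw [h2] at h1
        exact h1
      have h1 := hu k hkn
      rw [if_pos rfl, Finset.sum_eq_single (f k)] at h1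
      · have hcount : 2 ≤ (w k).count (f k) := by
          rw [ht, List.count_cons_self]
          have : 0 < t.count (f k) := List.count_pos_iff.2 (hgk ▸ hgmem)
          omega
        rcases Int.eq_one_or_neg_one_of_mul_eq_one h1 with h2 | h2
        · omega
        · omega
      · intro b _ hb
        by_cases hbm : b ∈ w k
        · obtain ⟨i, hi, rfl⟩ := hall b hbm hb
          rw [hu0 i hi, mul_zero]
        · rw [List.count_eq_zero_of_not_mem hbm]
          simp
      · intro hc; exact absurd (Finset.mem_univ _) hc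
    · obtain ⟨j, hjn, hj⟩ := surj_letters f finj (g k)
      have hjk : k < j := by
        rcases lt_trichotomy j k with h1 | h1 | h1
        · have h2 := ginj j (by omega) k hkn (by rw [hgf j h1, hj])
          omega
        · subst h1; exact absurd hj.symm hgk
        · exact h1
      refine ⟨j, hjk, hjn, Or.inl ⟨hj.symm, ?_⟩⟩
      have hc1 : 1 ≤ (w k).count (f k) := by rw [ht, List.count_cons_self]; omega
      have hmem2 : g k ∈ w k := by
        rw [ht]
        exact List.mem_cons_of_mem _ hgmem
      have hc2 : 1 ≤ (w k).count (g k) := List.count_pos_iff.2 hmem2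
      have h3 := wt_ge_two hl (w k) (f k) (g k) (Ne.symm hgk) 1 1 hc1 hc2
      rw [hwk] at h3
      rw [hj]
      push_cast at h3
      linarith
  obtain ⟨j, hkj, hjn, hcase⟩ := hj
  -- the main bound
  have hmain : (lam + 1) * S ≤ lam ^ k * L := by
    by_cases ha : (1 + lam) * l (f k) < lam ^ k
    · nlinarith
    by_cases hb : (1 + lam) * l (g k) < lam ^ k
    · nlinarith
    push Not at ha hb
    set A := ∑ i ∈ Finset.range (j - k), lam ^ i with hA
    set B := ∑ i ∈ Finset.range (n - j), lam ^ i with hBd
    have hLAB : L = A + lam ^ (j - k) * B := by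
      have h1 := geo (n - k)
      have h2 := geo (j - k)
      have h3 := geo (n - j)
      have h4 : lam ^ (n - k) = lam ^ (j - k) * lam ^ (n - j) := by
        rw [← pow_add]
        congr 1
        omega
      have h5 : (lam - 1) * L = (lam - 1) * (A + lam ^ (j - k) * B) := by
        rw [mul_add, mul_left_comm, h1, h2, h3, h4]
        ring
      have h6 : (lam - 1) ≠ 0 := by
        intro hc
        linarith
      exact mul_left_cancel₀ h6 h5
    have hq : lam ≤ lam ^ (j - k) := le_self_pow₀ hlam.le (by omega)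
    have hA1 := geo (j - k)
    have hB1 : 1 ≤ B := by
      have h1 : (fun i => lam ^ i) 0 ≤ B :=
        Finset.single_le_sum (f := fun i => lam ^ i) (s := Finset.range (n - j))
          (fun i _ => pow_nonneg (by linarith) i) (Finset.mem_range.2 (by omega))
      simpa using h1
    have hsum : S ≤ l (f k) * A + l (f j) * B := by
      have h1 : n - k = (j - k) + (n - j) := by omega
      rw [hS, h1, Finset.sum_range_add]
      have h2 : ∑ i ∈ Finset.range (j - k), l (f (k + i)) ≤ l (f k) * A :=
        sum_geo_le (F := fun i => l (f i)) fun i hi => gF k i (by omega)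
      have h3 : ∑ i ∈ Finset.range (n - j), l (f (j + i)) ≤ l (f j) * B :=
        sum_geo_le (F := fun i => l (f i)) fun i hi => gF j i (by omega)
      have h4 : ∑ i ∈ Finset.range (n - j), l (f (k + (j - k + i))) =
          ∑ i ∈ Finset.range (n - j), l (f (j + i)) := by
        refine Finset.sum_congr rfl fun i _ => ?_
        congr 2
        omega
      rw [h4]
      linarith
    have hle : (lam + 1) * S ≤ (lam + 1) * (l (f k) * A + l (f j) * B) :=
      mul_le_mul_of_nonneg_left hsum (by linarith)
    refine hle.trans ?_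
    rcases hcase with ⟨hgj, hab⟩ | hab
    · rw [hgj] at hb
      exact real_A hlam hx hq hA1 hB1 hLAB hab ha hb
    · exact real_B hlam hx hq hA1 hB1 hLAB hab ha (hl _).le
  -- the end
  have e1 := geo k
  have e2 := geo (n - k)
  have e3 : lam ^ n = lam ^ k * lam ^ (n - k) := by
    rw [← pow_add]
    congr 1
    omega
  have e4 : (lam - 1) * ((lam + 1) * S) ≤ (lam - 1) * (lam ^ k * L) :=
    mul_le_mul_of_nonneg_left hmain (by linarith)
  have e5 : (lam - 1) * (lam ^ k * L) = lam ^ n - lam ^ k := by
    rw [mul_left_comm, hL, e2, e3]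
    ring
  have e6 : lam ^ (k + 1) ≤ lam ^ (n - 1) := pow_le_pow_right₀ hlam.le (by omega)
  have e7 : lam ^ n = lam * lam ^ (n - 1) := by
    rw [← pow_succ']
    congr 1
    omega
  have e8 : (lam - 1) * T = lam ^ k - 1 + (lam - 1) * S := by
    rw [hsplit, mul_add, e1]
  rw [e8]
  have e9 : (lam + 1) * ((lam - 1) * S) ≤ lam ^ n - lam ^ k := by
    rw [← e5]
    linarith
  have e10 : lam ^ (k + 1) = lam * lam ^ k := pow_succ' lam k
  have e11 : (lam + 1) * ((lam - 1) * S) ≤ (lam + 1) * (lam ^ (n - 1) - lam ^ k) := by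
    rw [e10] at e6
    rw [e7] at e9
    nlinarith
  have e12 : (lam - 1) * S ≤ lam ^ (n - 1) - lam ^ k :=
    le_of_mul_le_mul_left e11 (by linarith)
  linarith

end

end D0L.Exc
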