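import Pool.Agent.H.MP_374efc_lc.Bim.Perron

/-!
# MP_374efc_lc: the sum of the weights of the letters

`golden`: in a normal form (distinct first letters, distinct last letters, Parikh vectors of `b_0, ..., b_(n-1)` a
basis) whose words `b_0, ..., b_(n-1)` are not all letters, the Perron weights satisfy
`(lam - 1) * ∑ l a ≤ lam ^ (n - 1) - 1`.
Paper: helper27, VOL3, section 1 (golden half lemma).
-/

set_option autoImplicit false

namespace D0L.Exc

open Bim

/-! ### arithmetic -/

/-- Two different end letters. -/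
theorem gold_a {lam K a b A B x S : ℝ} (h1 : 1 < lam) (hK : 0 < K) (hx : lam ≤ x)
    (hA : (lam - 1) * A = x - 1) (hB : 1 ≤ B) (hab : a + b ≤ K)
    (hS : S ≤ a * A + b * B) (hSa : S ≤ a * (A + x * B)) (hSb : S ≤ b * (A + x * B)) :
    (1 + lam) * S ≤ K * (A + x * B) := by
  have hA0 : 0 < A := by
    by_contra h
    have : (lam - 1) * A ≤ 0 := mul_nonpos_of_nonneg_of_nonpos (by linarith) (not_lt.1 h)
    linarith
  have hL : 0 < A + x * B := by
    have : 0 < x * B := mul_pos (by linarith) (by linarith)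
    linarith
  by_cases ha : (1 + lam) * a ≤ K
  · calc (1 + lam) * S ≤ (1 + lam) * (a * (A + x * B)) :=
          mul_le_mul_of_nonneg_left hSa (by linarith)
      _ = (1 + lam) * a * (A + x * B) := by ring
      _ ≤ K * (A + x * B) := mul_le_mul_of_nonneg_right ha hL.le
  by_cases hb : (1 + lam) * b ≤ K
  · calc (1 + lam) * S ≤ (1 + lam) * (b * (A + x * B)) :=
          mul_le_mul_of_nonneg_left hSb (by linarith)
      _ = (1 + lam) * b * (A + x * B) := by ring
      _ ≤ K * (A + x * B) := mul_le_mul_of_nonneg_right hb hL.le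
  push Not at ha hb
  have h2 : S ≤ a * A + (K - a) * B := by
    have : b * B ≤ (K - a) * B := mul_le_mul_of_nonneg_right (by linarith) (by linarith)
    linarith
  have h3 : (1 + lam) * S ≤ (1 + lam) * (a * A + (K - a) * B) :=
    mul_le_mul_of_nonneg_left h2 (by linarith)
  obtain ⟨s, hs⟩ : ∃ s, s = (1 + lam) * a - K := ⟨_, rfl⟩
  have hs0 : 0 < s := by linarith
  have hs1 : s < (lam - 1) * K := by
    have h4 : (1 + lam) * (a + b) ≤ (1 + lam) * K := mul_le_mul_of_nonneg_left hab (by linarith)
    nlinarith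
  have h4 : (1 + lam) * (a * A + (K - a) * B) = K * (A + lam * B) + s * (A - B) := by
    rw [hs]; ring
  rw [h4] at h3
  have h5 : K * (A + lam * B) ≤ K * (A + x * B) := by
    apply mul_le_mul_of_nonneg_left _ hK.le
    have : lam * B ≤ x * B := mul_le_mul_of_nonneg_right hx (by linarith)
    linarith
  by_cases hAB : A ≤ B
  · have : s * (A - B) ≤ 0 := mul_nonpos_of_nonneg_of_nonpos hs0.le (by linarith)
    linarith
  · push Not at hAB
    have h6 : s * (A - B) ≤ (lam - 1) * K * (A - B) :=
      mul_le_mul_of_nonneg_right hs1.le (by linarith)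
    have h7 : K * (A + lam * B) + (lam - 1) * K * (A - B) = K * (lam * A + B) := by ring
    have h8 : lam * A + B ≤ A + x * B := by
      have : (x - 1) * 1 ≤ (x - 1) * B := mul_le_mul_of_nonneg_left hB (by linarith)
      nlinarith
    have h9 : K * (lam * A + B) ≤ K * (A + x * B) := mul_le_mul_of_nonneg_left h8 hK.le
    linarith

/-- The same end letter on both sides. -/
theorem gold_b {lam K a b A B x S : ℝ} (h1 : 1 < lam) (hK : 0 < K) (hx : lam ≤ x)
    (hA : (lam - 1) * A = x - 1) (hB : 1 ≤ B) (hb0 : 0 ≤ b) (hab : 2 * a + b ≤ K)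
    (hS : S ≤ a * A + b * B) (hSa : S ≤ a * (A + x * B)) :
    (1 + lam) * S ≤ K * (A + x * B) := by
  have hA0 : 0 < A := by
    by_contra h
    have : (lam - 1) * A ≤ 0 := mul_nonpos_of_nonneg_of_nonpos (by linarith) (not_lt.1 h)
    linarith
  have hL : 0 < A + x * B := by
    have : 0 < x * B := mul_pos (by linarith) (by linarith)
    linarith
  by_cases ha : (1 + lam) * a ≤ K
  · calc (1 + lam) * S ≤ (1 + lam) * (a * (A + x * B)) :=
          mul_le_mul_of_nonneg_left hSa (by linarith)
      _ = (1 + lam) * a * (A + x * B) := by ring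
      _ ≤ K * (A + x * B) := mul_le_mul_of_nonneg_right ha hL.le
  push Not at ha
  have h2 : S ≤ a * A + (K - 2 * a) * B := by
    have : b * B ≤ (K - 2 * a) * B := mul_le_mul_of_nonneg_right (by linarith) (by linarith)
    linarith
  have h3 : (1 + lam) * S ≤ (1 + lam) * (a * A + (K - 2 * a) * B) :=
    mul_le_mul_of_nonneg_left h2 (by linarith)
  obtain ⟨s, hs⟩ : ∃ s, s = (1 + lam) * a - K := ⟨_, rfl⟩
  have hs0 : 0 < s := by linarith
  have hs1 : 2 * s ≤ (lam - 1) * K := by
    have h4 : (1 + lam) * (2 * a) ≤ (1 + lam) * K :=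
      mul_le_mul_of_nonneg_left (by linarith) (by linarith)
    nlinarith
  have h4 : (1 + lam) * (a * A + (K - 2 * a) * B) =
      K * (A + (lam - 1) * B) + s * (A - 2 * B) := by
    rw [hs]; ring
  rw [h4] at h3
  by_cases hAB : A ≤ 2 * B
  · have h5 : s * (A - 2 * B) ≤ 0 := mul_nonpos_of_nonneg_of_nonpos hs0.le (by linarith)
    have h6 : K * (A + (lam - 1) * B) ≤ K * (A + x * B) := by
      apply mul_le_mul_of_nonneg_left _ hK.le
      have : (lam - 1) * B ≤ x * B := mul_le_mul_of_nonneg_right (by linarith) (by linarith)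
      linarith
    linarith
  · push Not at hAB
    have h6 : 2 * s * (A - 2 * B) ≤ (lam - 1) * K * (A - 2 * B) :=
      mul_le_mul_of_nonneg_right hs1 (by linarith)
    have h7 : 2 * (K * (A + (lam - 1) * B)) + (lam - 1) * K * (A - 2 * B) =
        K * ((1 + lam) * A) := by ring
    have h8 : (1 + lam) * A ≤ 2 * (A + x * B) := by
      have : x * 1 ≤ x * B := mul_le_mul_of_nonneg_left hB (by linarith)
      nlinarith
    have h9 : K * ((1 + lam) * A) ≤ K * (2 * (A + x * B)) := mul_le_mul_of_nonneg_left h8 hK.le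
    nlinarith

/-- A geometric bound. -/
theorem sum_geo {lam : ℝ} (F : ℕ → ℝ) {j m : ℕ} (hjm : j ≤ m)
    (hF : ∀ i, j ≤ i → i < m → F i ≤ lam ^ (i - j) * F j) :
    ∑ i ∈ Finset.Ico j m, F i ≤ F j * ∑ i ∈ Finset.range (m - j), lam ^ i := by
  rw [Finset.sum_Ico_eq_sum_range, Finset.mul_sum]
  refine Finset.sum_le_sum fun i hi => ?_
  rw [Finset.mem_range] at hi
  have h1 := hF (j + i) (Nat.le_add_right _ _) (by omega)
  rw [Nat.add_sub_cancel_left] at h1
  linarith

/-- The geometric sum. -/
theorem geo_mul {lam : ℝ} (m : ℕ) : (lam - 1) * ∑ i ∈ Finset.range m, lam ^ i = lam ^ m - 1 := by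
  rw [mul_comm]
  exact geom_sum_mul lam m

/-! ### end letters -/

variable {n N : ℕ} {H : Fin n → List (Fin n)} {b0 : List (Fin n)} {lam : ℝ} {l : Fin n → ℝ}

theorem it_ne_nil (hw : PW H b0 lam l) (k : ℕ) (a : Fin n) : it H k [a] ≠ [] := by
  intro h
  have h1 := hw.lw_it k [a]
  rw [h, lw_nil, lw_cons, lw_nil, add_zero] at h1
  have h2 := mul_pos (pow_pos hw.lam_pos k) (hw.pos a)
  linarith

/-- The weights of the first letters. -/
theorem wt_first (hw : PW H b0 lam l) {f : Fin n → Fin n}
    (hf : ∀ i : Fin n, ∃ s, it H i b0 = f i :: s) {i j : Fin n} (hij : (j : ℕ) ≤ i) :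
    l (f i) ≤ lam ^ ((i : ℕ) - j) * l (f j) := by
  obtain ⟨s, hs⟩ := hf i
  obtain ⟨t, ht⟩ := hf j
  have h1 : it H i b0 = it H ((i : ℕ) - j) [f j] ++ it H ((i : ℕ) - j) t := by
    rw [← it_append, List.singleton_append, ← ht, ← it_add, Nat.sub_add_cancel hij]
  obtain ⟨c, u, hu⟩ := List.exists_cons_of_ne_nil (it_ne_nil hw ((i : ℕ) - j) (f j))
  rw [hu, hs, List.cons_append, List.cons.injEq] at h1
  have h3 := hw.lw_it ((i : ℕ) - j) [f j]
  rw [hu, lw_cons, lw_cons, lw_nil, add_zero, ← h1.1] at h3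
  have h4 := lw_nonneg hw.pos u
  linarith

/-- The weights of the last letters. -/
theorem wt_last (hw : PW H b0 lam l) {g : Fin n → Fin n}
    (hg : ∀ i : Fin n, ∃ s, it H i b0 = s ++ [g i]) {i j : Fin n} (hij : (j : ℕ) ≤ i) :
    l (g i) ≤ lam ^ ((i : ℕ) - j) * l (g j) := by
  obtain ⟨s, hs⟩ := hg i
  obtain ⟨t, ht⟩ := hg j
  have h1 : it H i b0 = it H ((i : ℕ) - j) t ++ it H ((i : ℕ) - j) [g j] := by
    rw [← it_append, ← ht, ← it_add, Nat.sub_add_cancel hij]
  have h2 := it_ne_nil hw ((i : ℕ) - j) (g j)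
  obtain ⟨u, c, hu⟩ := List.eq_nil_or_concat' (it H ((i : ℕ) - j) [g j]) |>.resolve_left h2
  rw [hu, hs, ← List.append_assoc] at h1
  have h5 : g i = c := by
    have := List.append_inj_right' h1 rfl
    simpa using this
  have h3 := hw.lw_it ((i : ℕ) - j) [g j]
  rw [hu, lw_append, lw_cons, lw_nil, lw_cons, lw_nil, add_zero, add_zero, ← h5] at h3
  have h4 := lw_nonneg hw.pos u
  linarith

/-- The sequence of the weights of the end letters. -/
noncomputable def ws (l : Fin n → ℝ) (f : Fin n → Fin n) (i : ℕ) : ℝ :=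
  if h : i < n then l (f ⟨i, h⟩) else 0

theorem ws_eq (l : Fin n → ℝ) (f : Fin n → Fin n) (i : Fin n) : ws l f i = l (f i) := by
  rw [ws, dif_pos i.2]

theorem ws_sum (l : Fin n → ℝ) {f : Fin n → Fin n} (hf : Function.Bijective f) :
    ∑ i ∈ Finset.range n, ws l f i = ∑ a, l a := by
  rw [← Fin.sum_univ_eq_sum_range (fun i => ws l f i) n]
  rw [← hf.sum_comp l]
  exact Finset.sum_congr rfl fun i _ => ws_eq l f i

/-! ### the determinant -/

/-- If `b_0, .., b_(k-1)` are letters, `b_k` contains some letter which is not the first letter of `b_0, .., b_k`,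
unless `b_k` contains the first letter of `b_k` only once. -/
theorem exists_new (hu : IsUnit (Matrix.of fun (i a : Fin n) => ((it H i b0).count a : ℤ)).det)
    {f : Fin n → Fin n} (hf : Function.Bijective f) {k : Fin n}
    (hk : ∀ i : Fin n, i < k → it H i b0 = [f i]) (h2 : 2 ≤ (it H k b0).count (f k)) :
    ∃ j, k < j ∧ f j ∈ it H k b0 := by
  classical
  by_contra hno
  push Not at hno
  set M : Matrix (Fin n) (Fin n) ℤ := Matrix.of fun (i a : Fin n) => ((it H i b0).count a : ℤ)
    with hM
  set c : ℤ := ((it H k b0).count (f k) : ℤ) with hc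
  let y : Fin n → ℤ := fun i => (if i = k then 1 else 0) +
    if i < k then -((it H k b0).count (f i) : ℤ) else 0
  have hy : Matrix.vecMul y M = Matrix.vecMul (c • (Pi.single (f k) 1 : Fin n → ℤ)) 1 := by
    rw [Matrix.vecMul_one]
    funext a
    obtain ⟨i0, rfl⟩ := hf.2 a
    have h3 : Matrix.vecMul y M (f i0) = ∑ i, ((if i = k then M k (f i0) else 0) +
        if i = i0 then (if i < k then -((it H k b0).count (f i) : ℤ) else 0) else 0) := by
      rw [Matrix.vecMul, dotProduct]
      refine Finset.sum_congr rfl fun i _ => ?_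
      simp only [y]
      rw [add_mul]
      congr 1
      · by_cases hik : i = k
        · subst hik
          rw [if_pos rfl, if_pos rfl, one_mul]
        · rw [if_neg hik, if_neg hik, zero_mul]
      · by_cases hik : i < k
        · have h4 : M i (f i0) = if i = i0 then 1 else 0 := by
            rw [hM, Matrix.of_apply, hk i hik, List.count_singleton]
            by_cases hi : i = i0
            · subst hi
              simp
            · have : ¬ f i = f i0 := fun h => hi (hf.1 h)
              simp [this, hi]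
          rw [if_pos hik, h4]
          split_ifs <;> simp
        · rw [if_neg hik, zero_mul]
          simp
    rw [h3, Finset.sum_add_distrib, Finset.sum_ite_eq' Finset.univ k, if_pos (Finset.mem_univ _),
      Finset.sum_ite_eq' Finset.univ i0, if_pos (Finset.mem_univ _), hM, Matrix.of_apply,
      Pi.smul_apply, smul_eq_mul, Pi.single_apply]
    rcases lt_trichotomy i0 k with h | h | h
    · rw [if_pos h, if_neg (fun h5 => h.ne (hf.1 h5))]
      simp
    · subst h
      rw [if_neg (lt_irrefl _), if_pos rfl, hc]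
      simp
    · rw [if_neg (not_lt.2 h.le), if_neg (fun h5 => h.ne' (hf.1 h5)),
        List.count_eq_zero_of_not_mem (hno i0 h)]
      simp
  have h5 : y = Matrix.vecMul (c • (Pi.single (f k) 1 : Fin n → ℤ)) M⁻¹ := by
    have h6 := congrArg (fun v => Matrix.vecMul v M⁻¹) hy
    simp only [Matrix.vecMul_vecMul] at h6
    rwa [Matrix.mul_nonsing_inv M hu, Matrix.vecMul_one, one_mul] at h6
  have h6 := congrFun h5 k
  rw [Matrix.smul_vecMul, Pi.smul_apply, smul_eq_mul] at h6
  have h7 : y k = 1 := by simp [y]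
  rw [h7] at h6
  have h8 : c ∣ 1 := ⟨_, h6⟩
  have h9 : c ≤ 1 := Int.le_of_dvd one_pos h8
  have h10 : (2 : ℤ) ≤ c := by
    rw [hc]
    exact_mod_cast h2
  omega

/-! ### the golden half lemma -/

/-- **The sum of the weights of the letters** in a normal form which is not given by letters. -/
theorem golden (hnf : NF H b0 N) (hw : PW H b0 lam l)
    (hl : ¬ ∀ i < n, (it H i b0).length = 1) :
    (lam - 1) * ∑ a, l a ≤ lam ^ (n - 1) - 1 := by
  classical
  obtain ⟨f, hf, hf'⟩ := hnf.first
  obtain ⟨g, hg, hg'⟩ := hnf.last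
  have hex : ∃ i, i < n ∧ (it H i b0).length ≠ 1 := by
    push Not at hl
    exact hl
  have hlam := hw.one_lt
  have hlam0 := hw.lam_pos
  obtain ⟨hkn, hk1⟩ := Nat.find_spec hex
  have hmin : ∀ i < Nat.find hex, (it H i b0).length = 1 := by
    intro i hi
    have h1 := Nat.find_min hex hi
    push Not at h1
    exact h1 (hi.trans hkn)
  set k := Nat.find hex with hk
  have hlet : ∀ i : Fin n, (i : ℕ) < k → it H i b0 = [f i] ∧ g i = f i := by
    intro i hi
    have h1 := hmin i hi
    obtain ⟨s, hs⟩ := hf' i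
    obtain ⟨t, ht⟩ := hg' i
    rw [hs, List.length_cons] at h1
    have h2 : s = [] := List.length_eq_zero_iff.1 (by omega)
    subst h2
    refine ⟨hs, ?_⟩
    rw [hs] at ht
    have h3 : t = [] := by
      have := congrArg List.length ht
      simp only [List.length_cons, List.length_nil, List.length_append] at this
      exact List.length_eq_zero_iff.1 (by omega)
    subst h3
    simpa using ht.symm
  -- the word b_k
  set K : Fin n := ⟨k, hkn⟩ with hK
  have hKk : (K : ℕ) = k := rfl
  obtain ⟨s, hs⟩ := hf' K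
  obtain ⟨t, ht⟩ := hg' K
  have hsne : s ≠ [] := by
    rintro rfl
    rw [hKk] at hs
    rw [hs] at hk1
    exact hk1 rfl
  obtain ⟨s1, c, hs1⟩ := (List.eq_nil_or_concat' s).resolve_left hsne
  have hcg : c = g K := by
    rw [hs, hs1, ← List.cons_append] at ht
    have := List.append_inj_right' ht rfl
    simpa using this
  subst hcg
  have hbk : it H K b0 = f K :: (s1 ++ [g K]) := by rw [hs, hs1]
  have hlk : l (f K) + (lw l s1 + l (g K)) = lam ^ k := by
    have h1 := hw.lw_w k
    rw [← hKk, hbk, lw_cons, lw_append, lw_cons, lw_nil, add_zero] at h1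
    exact h1
  have hs10 := lw_nonneg hw.pos s1
  -- sums
  have hFsum := ws_sum l hf
  have hGsum := ws_sum l hg
  have hsplit : ∀ u : Fin n → Fin n, ∑ i ∈ Finset.range n, ws l u i =
      ∑ i ∈ Finset.range k, ws l u i + ∑ i ∈ Finset.Ico k n, ws l u i := by
    intro u
    rw [Finset.sum_range_add_sum_Ico _ hkn.le]
  have hF0 : ∑ i ∈ Finset.range k, ws l f i = ∑ i ∈ Finset.range k, lam ^ i := by
    refine Finset.sum_congr rfl fun i hi => ?_
    rw [Finset.mem_range] at hi
    have h1 := (hlet ⟨i, hi.trans hkn⟩ hi).1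
    have h2 := hw.lw_w i
    simp only at h1
    rw [h1, lw_cons, lw_nil, add_zero] at h2
    rw [ws, dif_pos (hi.trans hkn)]
    exact h2
  have hG0 : ∑ i ∈ Finset.range k, ws l g i = ∑ i ∈ Finset.range k, ws l f i := by
    refine Finset.sum_congr rfl fun i hi => ?_
    rw [Finset.mem_range] at hi
    have h1 := (hlet ⟨i, hi.trans hkn⟩ hi).2
    rw [ws, ws, dif_pos (hi.trans hkn), dif_pos (hi.trans hkn), h1]
  obtain ⟨S, hS⟩ : ∃ S, S = ∑ i ∈ Finset.Ico k n, ws l f i := ⟨_, rfl⟩
  have hSg : S = ∑ i ∈ Finset.Ico k n, ws l g i := by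
    have h1 := hsplit f
    have h2 := hsplit g
    rw [hFsum] at h1
    rw [hGsum, hG0] at h2
    linarith
  have hwf : ∀ j i, j ≤ i → i < n → ws l f i ≤ lam ^ (i - j) * ws l f j := by
    intro j i hji hi
    have h1 := wt_first hw hf' (i := ⟨i, hi⟩) (j := ⟨j, hji.trans_lt hi⟩) hji
    rw [ws, ws, dif_pos hi, dif_pos (hji.trans_lt hi)]
    exact h1
  have hwg : ∀ j i, j ≤ i → i < n → ws l g i ≤ lam ^ (i - j) * ws l g j := by
    intro j i hji hi
    have h1 := wt_last hw hg' (i := ⟨i, hi⟩) (j := ⟨j, hji.trans_lt hi⟩) hji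
    rw [ws, ws, dif_pos hi, dif_pos (hji.trans_lt hi)]
    exact h1
  have hwk : ws l f k = l (f K) := ws_eq l f K
  have hwgk : ws l g k = l (g K) := ws_eq l g K
  -- the bound of the sum
  have main : ∀ j : Fin n, K < j →
      (f K ≠ g K → g K = f j) → (f K = g K → f j ∈ s1) → (1 + lam) * S ≤
        lam ^ k * ∑ i ∈ Finset.range (n - k), lam ^ i := by
    intro j hj hA hB
    have hkj : k < j := hj
    have hwj : ws l f j = l (f j) := ws_eq l f j
    have hgs : ∑ i ∈ Finset.range (n - k), lam ^ i = ∑ i ∈ Finset.range (j - k), lam ^ i +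
        lam ^ ((j : ℕ) - k) * ∑ i ∈ Finset.range (n - j), lam ^ i := by
      have h1 : n - k = (j - k) + (n - j) := by omega
      rw [h1, Finset.sum_range_add, Finset.mul_sum]
      congr 1
      refine Finset.sum_congr rfl fun i _ => ?_
      rw [pow_add]
    have h1 : S ≤ l (f K) * ∑ i ∈ Finset.range (j - k), lam ^ i +
        l (f j) * ∑ i ∈ Finset.range (n - j), lam ^ i := by
      rw [hS, ← Finset.sum_Ico_consecutive _ hkj.le j.2.le, ← hwk, ← hwj]
      exact add_le_add (sum_geo _ hkj.le fun i h2 h3 => hwf k i h2 (h3.trans j.2))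
        (sum_geo _ j.2.le fun i h2 h3 => hwf j i h2 h3)
    have h2 : S ≤ l (f K) * ∑ i ∈ Finset.range (n - k), lam ^ i := by
      rw [hS, ← hwk]
      exact sum_geo _ hkn.le fun i h2 h3 => hwf k i h2 h3
    have h3 : S ≤ l (g K) * ∑ i ∈ Finset.range (n - k), lam ^ i := by
      rw [hSg, ← hwgk]
      exact sum_geo _ hkn.le fun i h2 h3 => hwg k i h2 h3
    have hx : lam ≤ lam ^ ((j : ℕ) - k) := by
      have : lam ^ 1 ≤ lam ^ ((j : ℕ) - k) := pow_le_pow_right₀ hlam.le (by omega)
      rwa [pow_one] at this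
    have hBg : 1 ≤ ∑ i ∈ Finset.range (n - j), lam ^ i := by
      have h4 : 0 < n - (j : ℕ) := Nat.sub_pos_of_lt j.2
      have h5 : lam ^ 0 ≤ ∑ i ∈ Finset.range (n - j), lam ^ i :=
        Finset.single_le_sum (f := fun i => lam ^ i) (fun i _ => (pow_pos hlam0 i).le)
          (Finset.mem_range.2 h4)
      rwa [pow_zero] at h5
    rw [hgs] at h2 h3 ⊢
    by_cases hfg : f K = g K
    · have h4 := hB hfg
      have h5 : l (f j) ≤ lw l s1 := by
        have h6 : [f j] <:+: s1 := by
          obtain ⟨u, v, rfl⟩ := List.append_of_mem h4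
          exact ⟨u, v, by simp⟩
        have h7 := lw_infix hw.pos h6
        rwa [lw_cons, lw_nil, add_zero] at h7
      refine gold_b hlam (pow_pos hlam0 k) hx (geo_mul _) hBg (hw.pos (f j)).le ?_ h1 h2
      rw [← hfg] at hlk
      linarith
    · have h4 := hA hfg
      rw [h4] at h3
      refine gold_a hlam (pow_pos hlam0 k) hx (geo_mul _) hBg ?_ h1 h2 h3
      rw [h4] at hlk
      linarith
  -- the letter j
  have hj : ∃ j : Fin n, K < j ∧ (f K ≠ g K → g K = f j) ∧ (f K = g K → f j ∈ s1) := by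
    by_cases hfg : f K = g K
    · have h2 : 2 ≤ (it H K b0).count (f K) := by
        rw [hbk, ← hfg, List.count_cons_self, List.count_append]
        have : List.count (f K) [f K] = 1 := by simp
        omega
      obtain ⟨j, h3, h4⟩ := exists_new hnf.unit hf (fun i hi => (hlet i hi).1) h2
      refine ⟨j, h3, fun h => absurd hfg h, fun _ => ?_⟩
      rw [hbk, ← hfg, List.mem_cons, List.mem_append, List.mem_singleton] at h4
      have h5 : f j ≠ f K := fun h => h3.ne' (hf.1 h)
      rcases h4 with h4 | h4 | h4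
      · exact absurd h4 h5
      · exact h4
      · exact absurd h4 h5
    · obtain ⟨j, hj⟩ := hf.2 (g K)
      have h3 : K < j := by
        rcases lt_trichotomy K j with h | h | h
        · exact h
        · subst h
          exact absurd hj hfg
        · have h4 := (hlet j h).2
          rw [hj] at h4
          exact absurd (hg.1 h4) h.ne
      exact ⟨j, h3, fun _ => hj.symm, fun h => absurd h hfg⟩
  obtain ⟨j, hj1, hj2, hj3⟩ := hj
  have hfin := main j hj1 hj2 hj3
  have hkn1 : k + 1 ≤ n - 1 := by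
    have h1 : k < (j : ℕ) := hj1
    have h2 := j.2
    omega
  have htot : (lam - 1) * ∑ a, l a = lam ^ k - 1 + (lam - 1) * S := by
    rw [← hFsum, hsplit f, hF0, ← hS, mul_add, geo_mul]
  rw [htot]
  have h1 : (1 + lam) * ((lam - 1) * S) ≤ lam ^ n - lam ^ k := by
    calc (1 + lam) * ((lam - 1) * S) = (lam - 1) * ((1 + lam) * S) := by ring
      _ ≤ (lam - 1) * (lam ^ k * ∑ i ∈ Finset.range (n - k), lam ^ i) :=
          mul_le_mul_of_nonneg_left hfin (by linarith)
      _ = lam ^ k * ((lam - 1) * ∑ i ∈ Finset.range (n - k), lam ^ i) := by ring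
      _ = lam ^ n - lam ^ k := by
          rw [geo_mul, mul_sub, ← pow_add, mul_one]
          congr 2
          omega
  have h2 : lam ^ (k + 1) ≤ lam ^ (n - 1) := pow_le_pow_right₀ hlam.le hkn1
  have h3 : lam ^ n = lam * lam ^ (n - 1) := by
    rw [← pow_succ']
    congr 1
    omega
  have h4 : lam ^ (k + 1) = lam * lam ^ k := pow_succ' lam k
  have h5 : (1 + lam) * ((lam - 1) * S) ≤ (1 + lam) * (lam ^ (n - 1) - lam ^ k) := by
    nlinarith
  have h6 := le_of_mul_le_mul_left h5 (by linarith)
  linarith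

end D0L.Exc
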