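import Pool.Agent.H.MP_374efc_lc.Ex.Star2
import Pool.Agent.H.MP_374efc_lc.Ex.GoldenHalf
import Pool.Agent.H.MP_374efc_lc.Asm.Rev

/-!
# MP_374efc_lc: normal forms in which one word is an initial part of the next one

`lett_of_pfx`: if in a normal form some word `b_J` is an initial part of `b_(J+1)`, then `b_0, ..., b_(n-1)` are letters.
`lett_of_sfx`: the mirror statement.  `two_sided`: the volume inequality for the remaining normal forms.
-/

set_option autoImplicit false

namespace D0L.Star

open Bim

variable {n N : ℕ} {H : Fin n → List (Fin n)} {b0 : List (Fin n)} {lam : ℝ} {l : Fin n → ℝ}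

/-- **One word is an initial part of the next one.** -/
theorem lett_of_pfx (hnf : NF H b0 N) {J : ℕ} (hP : it H J b0 <+: it H (J + 1) b0) :
    Lett H b0 := by
  by_contra hl
  obtain ⟨lam, l, hw⟩ := perron hnf
  have h1 := star_nf1 hnf hw le_rfl hP
  have h2 := Exc.golden hnf hw hl
  linarith

/-- **One word is a final part of the next one.** -/
theorem lett_of_sfx (hnf : NF H b0 N) {J : ℕ} (hQ : it H J b0 <:+ it H (J + 1) b0) :
    Lett H b0 := by
  have h1 : it (rev H) J b0.reverse <+: it (rev H) (J + 1) b0.reverse := by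
    rw [it_rev, it_rev]
    exact List.reverse_prefix.2 hQ
  exact lett_rev_iff.1 (lett_of_pfx hnf.reverse h1)

/-- **The volume inequality of a normal form which does not consist of letters.** -/
theorem two_sided (hnf : NF H b0 N) (hl : ¬ Lett H b0) (hw : PW H b0 lam l) {e e' J : ℕ}
    (he : 1 ≤ e) (he' : 1 ≤ e') (hP : it H J b0 <+: it H (J + e) b0)
    (hQ : it H J b0 <:+ it H (J + e') b0) :
    lam ^ (n - e) + lam ^ (n - e') < lam ^ (n - 1) + 1 := by
  have h1 := star_nf2 hnf hw he he' hP hQ
  have h2 := Exc.golden hnf hw hl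
  linarith

end D0L.Star
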