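import Pool.Agent.H.MP_374efc_lc.Ex.NF1
import Pool.Agent.H.MP_374efc_lc.Pn.P1

/-!
# MP_374efc_lc: the prefix property of a normal form

`pfx_of_head`: in a normal form, if `b_m` and `b_(m+e)` have the same first letter, then some `b_J` is an initial part
of `b_(J+e)`. `lett_of_head`: if two consecutive words have the same first letter, then `b_0, ..., b_(n-1)` are letters.
-/

set_option autoImplicit false

namespace D0L.Star

open Bim

variable {n N : ℕ} {H : Fin n → List (Fin n)} {b0 : List (Fin n)} {lam : ℝ} {l : Fin n → ℝ}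

/-- **The prefix property.** -/
theorem pfx_of_head (hnf : NF H b0 N) {m e : ℕ}
    (hm : (it H m b0).head? = (it H (m + e) b0).head?) :
    ∃ J, it H J b0 <+: it H (J + e) b0 := by
  obtain ⟨lam, l, hw⟩ := perron hnf
  obtain ⟨K, hK⟩ := p1 n N H b0 hnf
  obtain ⟨a, s, hs⟩ := List.exists_cons_of_ne_nil (it_ne_nil' hw m hnf.ne)
  obtain ⟨a', s', hs'⟩ := List.exists_cons_of_ne_nil (it_ne_nil' hw (m + e) hnf.ne)
  have haa : a = a' := by
    rw [hs, hs'] at hm
    simpa using hm
  subst haa
  obtain ⟨js, hjs⟩ := hK a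
  have hne : it H K [a] ≠ [] := it_ne_nil' hw K (by simp)
  cases js with
  | nil => exact absurd hjs hne
  | cons j js =>
    have h0 : it H j b0 <+: it H K [a] := by
      rw [hjs, List.map_cons, List.flatten_cons]
      exact List.prefix_append _ _
    have h1 : it H j b0 <+: it H (m + K) b0 := by
      refine h0.trans ?_
      rw [Nat.add_comm, it_add, hs]
      exact prefix_it K ⟨s, rfl⟩
    have h2 : it H j b0 <+: it H (m + e + K) b0 := by
      refine h0.trans ?_
      rw [Nat.add_comm, it_add, hs']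
      exact prefix_it K ⟨s', rfl⟩
    have hj : j ≤ m + K := by
      have h3 := lw_infix hw.pos h1.isInfix
      rw [hw.lw_w, hw.lw_w] at h3
      exact (pow_le_pow_iff_right₀ hw.one_lt).1 h3
    obtain ⟨d, hd⟩ : ∃ d, m + K = j + d := ⟨m + K - j, by omega⟩
    have h4 : it H (j + e) b0 <+: it H (m + e + K) b0 := by
      have h5 := prefix_it (H := H) e h1
      rw [← it_add, ← it_add] at h5
      have e1 : e + j = j + e := Nat.add_comm _ _
      have e2 : e + (m + K) = m + e + K := by ring
      rwa [e1, e2] at h5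
    refine ⟨j, List.prefix_of_prefix_length_le h2 h4 ?_⟩
    exact length_it_mono (fun a => ne_of_inj hnf.inj a) b0 (Nat.le_add_right j e)

/-- **The suffix property.** -/
theorem sfx_of_last (hnf : NF H b0 N) {m e : ℕ}
    (hm : (it H m b0).getLast? = (it H (m + e) b0).getLast?) :
    ∃ J, it H J b0 <:+ it H (J + e) b0 := by
  have h1 : (it (rev H) m b0.reverse).head? = (it (rev H) (m + e) b0.reverse).head? := by
    rw [it_rev, it_rev, List.head?_reverse, List.head?_reverse, hm]
  obtain ⟨J, hJ⟩ := pfx_of_head hnf.reverse h1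
  refine ⟨J, ?_⟩
  rw [it_rev, it_rev] at hJ
  exact List.reverse_prefix.1 hJ

/-- **Two consecutive words with the same first letter.** -/
theorem lett_of_head (hnf : NF H b0 N) {m : ℕ}
    (hm : (it H m b0).head? = (it H (m + 1) b0).head?) : Lett H b0 := by
  obtain ⟨J, hJ⟩ := pfx_of_head hnf hm
  exact lett_of_pfx hnf hJ

/-- **Two consecutive words with the same last letter.** -/
theorem lett_of_last (hnf : NF H b0 N) {m : ℕ}
    (hm : (it H m b0).getLast? = (it H (m + 1) b0).getLast?) : Lett H b0 := by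
  obtain ⟨J, hJ⟩ := sfx_of_last hnf hm
  exact lett_of_sfx hnf hJ

theorem pfx_up {e J : ℕ} (hP : it H J b0 <+: it H (J + e) b0) (k : ℕ) :
    it H (J + k) b0 <+: it H (J + k + e) b0 := by
  have h1 := prefix_it (H := H) k hP
  rw [← it_add, ← it_add] at h1
  have e1 : k + J = J + k := Nat.add_comm _ _
  have e2 : k + (J + e) = J + k + e := by ring
  rwa [e1, e2] at h1

theorem sfx_up {e J : ℕ} (hQ : it H J b0 <:+ it H (J + e) b0) (k : ℕ) :
    it H (J + k) b0 <:+ it H (J + k + e) b0 := by
  have h1 := suffix_it (H := H) k hQ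
  rw [← it_add, ← it_add] at h1
  have e1 : k + J = J + k := Nat.add_comm _ _
  have e2 : k + (J + e) = J + k + e := by ring
  rwa [e1, e2] at h1

/-- The first letter of `b_n` is the first letter of `b_(n-e)`, `1 ≤ e ≤ n`. -/
theorem exists_e (hnf : NF H b0 N) : ∃ e, 1 ≤ e ∧ e ≤ n ∧
    (it H (n - e) b0).head? = (it H (n - e + e) b0).head? := by
  obtain ⟨lam, l, hw⟩ := perron hnf
  obtain ⟨a, s, hs⟩ := List.exists_cons_of_ne_nil (it_ne_nil' hw n hnf.ne)
  obtain ⟨i, t, ht⟩ := exists_first hnf a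
  have hi := i.2
  refine ⟨n - i, by omega, by omega, ?_⟩
  have e1 : n - (n - (i : ℕ)) = i := by omega
  have e2 : (i : ℕ) + (n - i) = n := by omega
  rw [e1, e2, ht, hs]
  rfl

theorem exists_e' (hnf : NF H b0 N) : ∃ e, 1 ≤ e ∧ e ≤ n ∧
    (it H (n - e) b0).getLast? = (it H (n - e + e) b0).getLast? := by
  obtain ⟨e, h1, h2, h3⟩ := exists_e hnf.reverse
  refine ⟨e, h1, h2, ?_⟩
  rw [it_rev, it_rev, List.head?_reverse, List.head?_reverse] at h3
  exact h3

/-- **The normal forms which do not consist of letters**: both periods are at least two, and the volume inequality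
holds. -/
theorem nf_ineq (hnf : NF H b0 N) (hl : ¬ Lett H b0) (hw : PW H b0 lam l) :
    ∃ e e' J, 2 ≤ e ∧ 2 ≤ e' ∧ e ≤ n ∧ e' ≤ n ∧
      it H J b0 <+: it H (J + e) b0 ∧ it H J b0 <:+ it H (J + e') b0 ∧
      lam ^ (n - e) + lam ^ (n - e') < lam ^ (n - 1) + 1 := by
  obtain ⟨e, h1, h2, h3⟩ := exists_e hnf
  obtain ⟨e', h1', h2', h3'⟩ := exists_e' hnf
  obtain ⟨J, hJ⟩ := pfx_of_head hnf h3
  obtain ⟨J', hJ'⟩ := sfx_of_last hnf h3'
  have he : 2 ≤ e := by
    by_contra hc
    have : e = 1 := by omega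
    subst this
    exact hl (lett_of_pfx hnf hJ)
  have he' : 2 ≤ e' := by
    by_contra hc
    have : e' = 1 := by omega
    subst this
    exact hl (lett_of_sfx hnf hJ')
  have h4 := pfx_up hJ J'
  have h5 := sfx_up hJ' J
  rw [Nat.add_comm J' J] at h5
  exact ⟨e, e', J + J', he, he', h2, h2', h4, h5, two_sided hnf hl hw h1 h1' h4 h5⟩

end D0L.Star
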