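import Pool.Agent.H.MP_374efc_lc.Ex.Golden

/-!
# MP_374efc_lc: the star inequality

`w (i+1) = h (w i)`, the words `w 0, ..., w (n-1)` over `n` letters have different first letters, `h` is an
automorphism of the free group, `l` is the eigenvector with `|w i| = lam ^ i`.  If at some level `w J` is an initial
part of `w (J + e)`, then `lam ^ (n - e) - 1 < (lam - 1) * ∑ l`.
-/

set_option autoImplicit false

namespace D0L.Exc

variable {n : ℕ}

theorem wt_it {h : Fin n → List (Fin n)} {l : Fin n → ℝ} {lam : ℝ}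
    (hext : ∀ a, wt l (h a) = lam * l a) (k : ℕ) (u : List (Fin n)) :
    wt l (it h k u) = lam ^ k * wt l u := by
  induction k with
  | zero => rw [it_zero, pow_zero, one_mul]
  | succ k ih => rw [it_succ, wt_app hext, ih, pow_succ]; ring

theorem prefix_app {h : Fin n → List (Fin n)} {u v : List (Fin n)} (huv : u <+: v) :
    app h u <+: app h v := by
  obtain ⟨t, rfl⟩ := huv
  rw [app_append]
  exact List.prefix_append _ _

theorem prefix_it {h : Fin n → List (Fin n)} (k : ℕ) {u v : List (Fin n)} (huv : u <+: v) :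
    it h k u <+: it h k v := by
  obtain ⟨t, rfl⟩ := huv
  rw [it_append]
  exact List.prefix_append _ _

theorem it_w {h : Fin n → List (Fin n)} {w : ℕ → List (Fin n)} (hw : ∀ i, w (i + 1) = app h (w i))
    (k i : ℕ) : it h k (w i) = w (i + k) := by
  induction k with
  | zero => rw [it_zero, Nat.add_zero]
  | succ k ih => rw [it_succ, ih, ← hw]; rfl

theorem it_ne {h : Fin n → List (Fin n)} (hne : ∀ a, h a ≠ []) (k : ℕ) {u : List (Fin n)}
    (hu : u ≠ []) : it h k u ≠ [] := by
  intro hc
  have h1 : ∀ v : List (Fin n), v ≠ [] → app h v ≠ [] := by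
    intro v hv hc
    have := length_le_app hne v
    rw [hc, List.length_nil, Nat.le_zero, List.length_eq_zero_iff] at this
    exact hv this
  induction k with
  | zero => exact hu hc
  | succ k ih =>
    rw [it_succ] at hc
    by_cases h2 : it h k u = []
    · exact ih h2
    · exact h1 _ h2 hc

/-- The iterates of an automorphism. -/
theorem exists_iterate {h : Fin n → List (Fin n)} (Θ : FreeGroup (Fin n) →* FreeGroup (Fin n))
    (hΘ : ∀ x, Θ (FreeGroup.of x) = gw (h x)) (hb : Function.Bijective Θ) (J : ℕ) :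
    ∃ Θ' : FreeGroup (Fin n) →* FreeGroup (Fin n), (∀ u, Θ' (gw u) = gw (it h J u)) ∧
      Function.Bijective Θ' := by
  have h1 : ∀ u, Θ (gw u) = gw (app h u) := by
    intro u
    induction u with
    | nil => rw [gw_nil, _root_.map_one, app_nil, gw_nil]
    | cons a u ih => rw [gw_cons, _root_.map_mul, ih, hΘ, app_cons, gw_append]
  induction J with
  | zero => exact ⟨MonoidHom.id _, fun u => rfl, Function.bijective_id⟩
  | succ J ih =>
    obtain ⟨Θ', h2, h3⟩ := ih
    refine ⟨Θ.comp Θ', fun u => ?_, ?_⟩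
    · rw [MonoidHom.comp_apply, h2, h1, it_succ]
    · rw [MonoidHom.coe_comp]
      exact hb.comp h3

/-- **The star inequality, prefix form.** For each `i` in a set `I` of indices the word `q i` is a common initial
part, at level `-J`, of `u i` and of the center `u (c i)`. -/
theorem star_gen (h : Fin n → List (Fin n)) (hne : ∀ a, h a ≠ [])
    (Θ : FreeGroup (Fin n) →* FreeGroup (Fin n)) (hΘ : ∀ x, Θ (FreeGroup.of x) = gw (h x))
    (hb : Function.Bijective Θ) (l : Fin n → ℝ) (hl : ∀ a, 0 < l a) (lam : ℝ)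
    (hext : ∀ a, wt l (h a) = lam * l a)
    (J : ℕ) (u : Fin n → List (Fin n)) (hf : ∀ i j, (u i).head? = (u j).head? → i = j)
    (I : Finset (Fin n)) (c : Fin n → Fin n) (hc : ∀ i ∈ I, i < c i) (q : Fin n → List (Fin n))
    (hq : ∀ i ∈ I, q i <+: it h J (u i)) (hq' : ∀ i ∈ I, q i <+: it h J (u (c i))) :
    ∑ i ∈ I, wt l (q i) ≤ (lam ^ J - 1) * ∑ a, l a := by
  classical
  obtain ⟨Θ', h1, h2⟩ := exists_iterate Θ hΘ hb J
  have h3 := excess (κ := (Fin n)ᵒᵈ) (fun x : Fin n => it h J [x])
    (fun x => it_ne hne J (by simp)) Θ'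
    (fun x => by
      have := h1 [x]
      rw [gw_cons, gw_nil, mul_one] at this
      exact this)
    h2 l (fun a => (hl a).le) (fun i => u (OrderDual.ofDual i))
    (fun i j hij => by
      have := hf _ _ hij
      exact OrderDual.ofDual.injective this)
    (I.map OrderDual.toDual.toEmbedding) (fun i => OrderDual.toDual (c (OrderDual.ofDual i)))
    (by
      intro i hi
      rw [Finset.mem_map_equiv] at hi
      exact OrderDual.toDual_lt_toDual.2 (hc _ hi))
    (fun i => q (OrderDual.ofDual i))
    (by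
      intro i hi
      rw [Finset.mem_map_equiv] at hi
      have := hq _ hi
      rw [it_eq_app] at this
      exact this)
    (by
      intro i hi
      rw [Finset.mem_map_equiv] at hi
      have := hq' _ hi
      rw [it_eq_app] at this
      exact this)
  rw [Finset.sum_map] at h3
  refine h3.trans (le_of_eq ?_)
  have h4 : ∀ x : Fin n, wt l (it h J [x]) = lam ^ J * l x := by
    intro x
    rw [wt_it hext]
    simp [wt]
  simp_rw [h4]
  rw [← Finset.mul_sum]
  ring

theorem sum_pow_fin (lam : ℝ) (e : ℕ) (hen : e ≤ n) :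
    ∑ i ∈ (Finset.univ.filter fun i : Fin n => (i : ℕ) < n - e), lam ^ (i : ℕ) =
      ∑ i ∈ Finset.range (n - e), lam ^ i := by
  classical
  rw [Finset.sum_filter, Fin.sum_univ_eq_sum_range (fun i => if i < n - e then lam ^ i else 0) n,
    ← Finset.sum_filter]
  refine Finset.sum_congr ?_ fun _ _ => rfl
  ext i
  simp only [Finset.mem_filter, Finset.mem_range]
  omega

/-- **The star inequality.** -/
theorem star (h : Fin n → List (Fin n)) (hne : ∀ a, h a ≠ [])
    (Θ : FreeGroup (Fin n) →* FreeGroup (Fin n)) (hΘ : ∀ x, Θ (FreeGroup.of x) = gw (h x))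
    (hb : Function.Bijective Θ) (w : ℕ → List (Fin n)) (hw : ∀ i, w (i + 1) = app h (w i))
    (l : Fin n → ℝ) (hl : ∀ a, 0 < l a) (lam : ℝ) (hlam : 1 < lam)
    (hext : ∀ a, wt l (h a) = lam * l a) (h0 : wt l (w 0) = 1)
    (hf : ∀ i j : Fin n, (w i).head? = (w j).head? → i = j)
    (e : ℕ) (he : 1 ≤ e) (hen : e ≤ n) (J : ℕ) (hP : w J <+: w (J + e)) :
    lam ^ (n - e) - 1 < (lam - 1) * ∑ a, l a := by
  classical
  have hn : 0 < n := by omega
  have : Nonempty (Fin n) := ⟨⟨0, hn⟩⟩
  have hS : 0 < ∑ a, l a := Finset.sum_pos (fun a _ => hl a) Finset.univ_nonempty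
  -- initial parts
  have hP1 : ∀ i t, w (J + i) <+: w (J + i + e * t) := by
    intro i t
    induction t with
    | zero => rw [Nat.mul_zero, Nat.add_zero]
    | succ t ih =>
      refine ih.trans ?_
      have h1 := prefix_it (h := h) (i + e * t) hP
      rw [it_w hw, it_w hw] at h1
      have e1 : J + (i + e * t) = J + i + e * t := by ring
      have e2 : J + e + (i + e * t) = J + i + e * (t + 1) := by ring
      rwa [e1, e2] at h1
  have hm : ∀ i : Fin n, (i : ℕ) + e * ((n - 1 - i) / e) < n := by
    intro i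
    have h1 := Nat.mul_div_le (n - 1 - i) e
    have h2 := i.2
    omega
  have h1 := star_gen h hne Θ hΘ hb l hl lam hext J (fun i : Fin n => w i) hf
    (Finset.univ.filter fun i : Fin n => (i : ℕ) < n - e)
    (fun i => ⟨(i : ℕ) + e * ((n - 1 - i) / e), hm i⟩)
    (by
      intro i hi
      rw [Finset.mem_filter] at hi
      rw [Fin.lt_def]
      change (i : ℕ) < (i : ℕ) + e * ((n - 1 - i) / e)
      have h1 : 1 ≤ (n - 1 - i) / e := by
        rw [Nat.le_div_iff_mul_le (by omega)]
        omega
      nlinarith)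
    (fun i => w (i + J))
    (by
      intro i _
      rw [it_w hw])
    (by
      intro i _
      rw [it_w hw]
      have := hP1 i ((n - 1 - i) / e)
      have e1 : J + (i : ℕ) = i + J := Nat.add_comm _ _
      have e2 : J + (i : ℕ) + e * ((n - 1 - i) / e) = (i : ℕ) + e * ((n - 1 - i) / e) + J := by
        omega
      rw [e2, e1] at this
      exact this)
  have h2 : ∀ i, wt l (w i) = lam ^ i := by
    intro i
    have := it_w hw i 0
    rw [Nat.zero_add] at this
    rw [← this, wt_it hext, h0, mul_one]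
  simp_rw [h2, pow_add] at h1
  rw [← Finset.sum_mul, sum_pow_fin lam e hen] at h1
  have h3 : (∑ i ∈ Finset.range (n - e), lam ^ i) * (lam - 1) = lam ^ (n - e) - 1 :=
    geom_sum_mul lam (n - e)
  have hJ : 0 < lam ^ J := pow_pos (by linarith) J
  -- multiply
  have h4 : (∑ i ∈ Finset.range (n - e), lam ^ i) < ∑ a, l a := by
    have h5 : (∑ i ∈ Finset.range (n - e), lam ^ i) * lam ^ J < (∑ a, l a) * lam ^ J := by
      nlinarith
    exact lt_of_mul_lt_mul_right h5 hJ.le
  rw [← h3]
  nlinarith

end D0L.Exc
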