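import Pool.Agent.H.MP_374efc_lc.Ex.Excess2
import Pool.Agent.H.MP_374efc_lc.Ex.GhInj
import Pool.Agent.H.MP_374efc_lc.Bim.Perron

/-!
# MP_374efc_lc: the star inequality in normal forms

`star_nf2`: in a normal form with Perron weights `l`, if `b_J` is an initial part of `b_(J+e)` and a final part of
`b_(J+e')`, then `(lam ^ (n - e) - 1) + (lam ^ (n - e') - 1) < (lam - 1) * ∑ l`.
-/

set_option autoImplicit false

namespace D0L.Star

open Bim

variable {n N : ℕ} {H : Fin n → List (Fin n)} {b0 : List (Fin n)} {lam : ℝ} {l : Fin n → ℝ}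

theorem wt_eq_lw (l : Fin n → ℝ) (u : List (Fin n)) : Exc.wt l u = lw l u := rfl

theorem it_ne_nil' (hw : PW H b0 lam l) (k : ℕ) {u : List (Fin n)} (hu : u ≠ []) :
    it H k u ≠ [] := by
  intro h
  have h1 := hw.lw_it k u
  rw [h, lw_nil] at h1
  have h2 := mul_pos (pow_pos hw.lam_pos k) (lw_pos hw.pos hu)
  linarith

/-- The iterates are injective on the free group. -/
theorem exists_theta (hnf : NF H b0 N) (J : ℕ) :
    ∃ Θ : FreeGroup (Fin n) →* FreeGroup (Fin n), (∀ x, Θ (FreeGroup.of x) =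
      Exc.gw (it H J [x])) ∧ Function.Injective Θ := by
  let θ : FreeGroup (Fin n) →* FreeGroup (Fin n) := FreeGroup.lift fun a => Exc.gw (H a)
  have h0 : ∀ x, θ (FreeGroup.of x) = Exc.gw (H x) := fun x => FreeGroup.lift_apply_of
  have hi : Function.Injective θ := Exc.inj_of_det H θ h0 (det_inc hnf)
  have h1 : ∀ u, θ (Exc.gw u) = Exc.gw (app H u) := by
    intro u
    induction u with
    | nil => rw [Exc.gw_nil, _root_.map_one, app_nil, Exc.gw_nil]
    | cons a u ih => rw [Exc.gw_cons, _root_.map_mul, ih, h0, app_cons, Exc.gw_append]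
  have key : ∀ J : ℕ, ∃ Θ : FreeGroup (Fin n) →* FreeGroup (Fin n),
      (∀ u, Θ (Exc.gw u) = Exc.gw (it H J u)) ∧ Function.Injective Θ := by
    intro J
    induction J with
    | zero => exact ⟨MonoidHom.id _, fun u => rfl, Function.injective_id⟩
    | succ J ih =>
      obtain ⟨Θ', h2, h3⟩ := ih
      refine ⟨θ.comp Θ', fun u => ?_, ?_⟩
      · rw [MonoidHom.comp_apply, h2, h1, it_succ]
      · rw [MonoidHom.coe_comp]
        exact hi.comp h3
  obtain ⟨Θ, h2, h3⟩ := key J
  refine ⟨Θ, fun x => ?_, h3⟩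
  have h4 := h2 [x]
  rw [Exc.gw_cons, Exc.gw_nil, mul_one] at h4
  exact h4

/-- Every letter occurs in the iterates. -/
theorem occ_it (hnf : NF H b0 N) (J : ℕ) (a : Fin n) : ∃ x, a ∈ it H J [x] := by
  induction J generalizing a with
  | zero => exact ⟨a, by simp [it_zero]⟩
  | succ J ih =>
    obtain ⟨q, hq, hm⟩ := hnf.irr a a
    obtain ⟨p, rfl⟩ : ∃ p, q = p + 1 := ⟨q - 1, by omega⟩
    rw [it_succ, mem_app] at hm
    obtain ⟨c, -, hc⟩ := hm
    obtain ⟨x, hx⟩ := ih c
    refine ⟨x, ?_⟩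
    rw [it_succ, mem_app]
    exact ⟨c, hx, hc⟩

/-- **The star inequality, general form.** `u i` are words with different first letters, `u' i` words with different
last letters; `p i` is a common initial part, at level `-J`, of `u i` and `u (c i)`, `i < c i`, and `p' i` a common
final part of `u' i` and `u' (c' i)`. -/
theorem star_gen2 (hnf : NF H b0 N) (hw : PW H b0 lam l) (J : ℕ) (u u' : Fin n → List (Fin n))
    (hf : ∀ i j, (u i).head? = (u j).head? → i = j)
    (hg : ∀ i j, (u' i).getLast? = (u' j).getLast? → i = j)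
    (I I' : Finset (Fin n)) (c c' : Fin n → Fin n) (hc : ∀ i ∈ I, i < c i)
    (hc' : ∀ i ∈ I', i < c' i) (p p' : Fin n → List (Fin n))
    (hp1 : ∀ i ∈ I, p i <+: it H J (u i)) (hp2 : ∀ i ∈ I, p i <+: it H J (u (c i)))
    (hq1 : ∀ i ∈ I', p' i <:+ it H J (u' i)) (hq2 : ∀ i ∈ I', p' i <:+ it H J (u' (c' i))) :
    ∑ i ∈ I, lw l (p i) + ∑ i ∈ I', lw l (p' i) ≤ (lam ^ J - 1) * ∑ a, l a := by
  classical
  obtain ⟨Θ, h1, h2⟩ := exists_theta hnf J
  have h3 := Exc.excess2_inj (κ := (Fin n)ᵒᵈ) (κ' := (Fin n)ᵒᵈ) (fun x : Fin n => it H J [x])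
    (fun x => it_ne_nil' hw J (by simp)) Θ h1 h2 (fun a => occ_it hnf J a) l
    (fun a => (hw.pos a).le) (fun i => u (OrderDual.ofDual i))
    (fun i j hij => OrderDual.ofDual.injective (hf _ _ hij))
    (I.map OrderDual.toDual.toEmbedding) (fun i => OrderDual.toDual (c (OrderDual.ofDual i)))
    (by
      intro i hi
      rw [Finset.mem_map_equiv] at hi
      exact OrderDual.toDual_lt_toDual.2 (hc _ hi))
    (fun i => p (OrderDual.ofDual i))
    (by
      intro i hi
      rw [Finset.mem_map_equiv] at hi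
      have := hp1 _ hi
      rw [it_eq_app] at this
      exact this)
    (by
      intro i hi
      rw [Finset.mem_map_equiv] at hi
      have := hp2 _ hi
      rw [it_eq_app] at this
      exact this)
    (fun i => u' (OrderDual.ofDual i))
    (fun i j hij => OrderDual.ofDual.injective (hg _ _ hij))
    (I'.map OrderDual.toDual.toEmbedding) (fun i => OrderDual.toDual (c' (OrderDual.ofDual i)))
    (by
      intro i hi
      rw [Finset.mem_map_equiv] at hi
      exact OrderDual.toDual_lt_toDual.2 (hc' _ hi))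
    (fun i => p' (OrderDual.ofDual i))
    (by
      intro i hi
      rw [Finset.mem_map_equiv] at hi
      have := hq1 _ hi
      rw [it_eq_app] at this
      exact this)
    (by
      intro i hi
      rw [Finset.mem_map_equiv] at hi
      have := hq2 _ hi
      rw [it_eq_app] at this
      exact this)
  rw [Finset.sum_map, Finset.sum_map] at h3
  refine h3.trans (le_of_eq ?_)
  have h4 : ∀ x : Fin n, Exc.wt l (it H J [x]) = lam ^ J * l x := by
    intro x
    rw [wt_eq_lw, hw.lw_it]
    simp [lw]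
  simp_rw [h4]
  rw [← Finset.mul_sum]
  ring

theorem sum_pow_fin (lam : ℝ) (e : ℕ) :
    ∑ i ∈ (Finset.univ.filter fun i : Fin n => (i : ℕ) < n - e), lam ^ (i : ℕ) =
      ∑ i ∈ Finset.range (n - e), lam ^ i := by
  classical
  rw [Finset.sum_filter, Fin.sum_univ_eq_sum_range (fun i => if i < n - e then lam ^ i else 0) n,
    ← Finset.sum_filter]
  refine Finset.sum_congr ?_ fun _ _ => rfl
  ext i
  simp only [Finset.mem_filter, Finset.mem_range]
  omega

theorem it_w (J i : ℕ) : it H J (it H i b0) = it H (i + J) b0 := by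
  rw [← it_add, Nat.add_comm]

/-- The center of the class of `i`. -/
theorem exists_cen (e : ℕ) (he : 1 ≤ e) (i : Fin n) (hi : (i : ℕ) < n - e) :
    ∃ c : Fin n, i < c ∧ ∃ t, (c : ℕ) = i + e * t := by
  have h1 := Nat.mul_div_le (n - 1 - i) e
  have h2 := i.2
  refine ⟨⟨(i : ℕ) + e * ((n - 1 - i) / e), by omega⟩, ?_, (n - 1 - i) / e, rfl⟩
  rw [Fin.lt_def]
  change (i : ℕ) < (i : ℕ) + e * ((n - 1 - i) / e)
  have h3 : 1 ≤ (n - 1 - i) / e := by
    rw [Nat.le_div_iff_mul_le (by omega)]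
    omega
  nlinarith

theorem prefix_it {u v : List (Fin n)} (k : ℕ) (huv : u <+: v) : it H k u <+: it H k v := by
  obtain ⟨t, rfl⟩ := huv
  rw [it_append]
  exact List.prefix_append _ _

theorem suffix_it {u v : List (Fin n)} (k : ℕ) (huv : u <:+ v) : it H k u <:+ it H k v := by
  obtain ⟨t, rfl⟩ := huv
  rw [it_append]
  exact List.suffix_append _ _

theorem pre_mul {e J : ℕ} (hP : it H J b0 <+: it H (J + e) b0) (i t : ℕ) :
    it H J (it H i b0) <+: it H J (it H (i + e * t) b0) := by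
  induction t with
  | zero => rw [Nat.mul_zero, Nat.add_zero]
  | succ t ih =>
    refine ih.trans ?_
    have h1 := prefix_it (H := H) (i + e * t) hP
    rw [← it_add, ← it_add] at h1
    rw [← it_add, ← it_add]
    have e1 : i + e * t + J = J + (i + e * t) := by ring
    have e2 : i + e * t + (J + e) = J + (i + e * (t + 1)) := by ring
    rwa [e1, e2] at h1

theorem suf_mul {e J : ℕ} (hQ : it H J b0 <:+ it H (J + e) b0) (i t : ℕ) :
    it H J (it H i b0) <:+ it H J (it H (i + e * t) b0) := by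
  induction t with
  | zero => rw [Nat.mul_zero, Nat.add_zero]
  | succ t ih =>
    refine ih.trans ?_
    have h1 := suffix_it (H := H) (i + e * t) hQ
    rw [← it_add, ← it_add] at h1
    rw [← it_add, ← it_add]
    have e1 : i + e * t + J = J + (i + e * t) := by ring
    have e2 : i + e * t + (J + e) = J + (i + e * (t + 1)) := by ring
    rwa [e1, e2] at h1

theorem first_inj (hnf : NF H b0 N) (i j : Fin n) (h : (it H i b0).head? = (it H j b0).head?) :
    i = j := by
  obtain ⟨f, hf, hf'⟩ := hnf.first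
  obtain ⟨s, hs⟩ := hf' i
  obtain ⟨t, ht⟩ := hf' j
  rw [hs, ht] at h
  simp at h
  exact hf.1 h

theorem last_inj (hnf : NF H b0 N) (i j : Fin n)
    (h : (it H i b0).getLast? = (it H j b0).getLast?) : i = j := by
  obtain ⟨f, hf, hf'⟩ := hnf.last
  obtain ⟨s, hs⟩ := hf' i
  obtain ⟨t, ht⟩ := hf' j
  rw [hs, ht] at h
  simp at h
  exact hf.1 h

theorem sum_part (hw : PW H b0 lam l) (J e : ℕ) :
    (∑ i ∈ (Finset.univ.filter fun i : Fin n => (i : ℕ) < n - e),
      lw l (it H J (it H i b0))) * (lam - 1) = lam ^ J * (lam ^ (n - e) - 1) := by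
  have h1 : ∀ i : Fin n, lw l (it H J (it H i b0)) = lam ^ (i : ℕ) * lam ^ J := by
    intro i
    rw [it_w, hw.lw_w, pow_add]
  simp_rw [h1]
  rw [← Finset.sum_mul, sum_pow_fin lam e, mul_right_comm, geom_sum_mul]
  ring

/-- **The star inequality.** -/
theorem star_nf2 (hnf : NF H b0 N) (hw : PW H b0 lam l) {e e' J : ℕ} (he : 1 ≤ e) (he' : 1 ≤ e')
    (hP : it H J b0 <+: it H (J + e) b0) (hQ : it H J b0 <:+ it H (J + e') b0) :
    (lam ^ (n - e) - 1) + (lam ^ (n - e') - 1) < (lam - 1) * ∑ a, l a := by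
  classical
  have hn := pos_n hnf
  have : Nonempty (Fin n) := ⟨⟨0, hn⟩⟩
  have hS : 0 < ∑ a, l a := Finset.sum_pos (fun a _ => hw.pos a) Finset.univ_nonempty
  have hc : ∀ i : Fin n, ∃ c : Fin n, (i : ℕ) < n - e → i < c ∧ ∃ t, (c : ℕ) = i + e * t := by
    intro i
    by_cases hi : (i : ℕ) < n - e
    · obtain ⟨c, hc⟩ := exists_cen e he i hi
      exact ⟨c, fun _ => hc⟩
    · exact ⟨i, fun h => absurd h hi⟩
  have hc' : ∀ i : Fin n, ∃ c : Fin n, (i : ℕ) < n - e' → i < c ∧ ∃ t, (c : ℕ) = i + e' * t := by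
    intro i
    by_cases hi : (i : ℕ) < n - e'
    · obtain ⟨c, hc⟩ := exists_cen e' he' i hi
      exact ⟨c, fun _ => hc⟩
    · exact ⟨i, fun h => absurd h hi⟩
  choose c hc using hc
  choose c' hc' using hc'
  have h1 := star_gen2 hnf hw J (fun i : Fin n => it H i b0) (fun i : Fin n => it H i b0)
    (first_inj hnf) (last_inj hnf)
    (Finset.univ.filter fun i : Fin n => (i : ℕ) < n - e)
    (Finset.univ.filter fun i : Fin n => (i : ℕ) < n - e') c c'
    (fun i hi => (hc i (Finset.mem_filter.1 hi).2).1)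
    (fun i hi => (hc' i (Finset.mem_filter.1 hi).2).1)
    (fun i => it H J (it H i b0)) (fun i => it H J (it H i b0))
    (fun i _ => List.prefix_refl _)
    (fun i hi => by
      obtain ⟨-, t, ht⟩ := hc i (Finset.mem_filter.1 hi).2
      rw [ht]
      exact pre_mul hP i t)
    (fun i _ => List.suffix_refl _)
    (fun i hi => by
      obtain ⟨-, t, ht⟩ := hc' i (Finset.mem_filter.1 hi).2
      rw [ht]
      exact suf_mul hQ i t)
  have h2 := sum_part hw J e
  have h3 := sum_part hw J e'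
  have hJ : 0 < lam ^ J := pow_pos hw.lam_pos J
  have hl1 := hw.one_lt
  have h4 : lam ^ J * ((lam ^ (n - e) - 1) + (lam ^ (n - e') - 1)) <
      lam ^ J * ((lam - 1) * ∑ a, l a) := by
    have h5 := mul_le_mul_of_nonneg_right h1 (by linarith : (0 : ℝ) ≤ lam - 1)
    rw [add_mul] at h5
    rw [mul_add, ← h2, ← h3]
    refine lt_of_le_of_lt h5 ?_
    have h6 : 0 < (lam - 1) * ∑ a, l a := mul_pos (by linarith) hS
    nlinarith
  exact lt_of_mul_lt_mul_left h4 hJ.le

/-- **The star inequality, one side.** -/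
theorem star_nf1 (hnf : NF H b0 N) (hw : PW H b0 lam l) {e J : ℕ} (he : 1 ≤ e)
    (hP : it H J b0 <+: it H (J + e) b0) : lam ^ (n - e) - 1 < (lam - 1) * ∑ a, l a := by
  classical
  have hn := pos_n hnf
  have : Nonempty (Fin n) := ⟨⟨0, hn⟩⟩
  have hS : 0 < ∑ a, l a := Finset.sum_pos (fun a _ => hw.pos a) Finset.univ_nonempty
  have hc : ∀ i : Fin n, ∃ c : Fin n, (i : ℕ) < n - e → i < c ∧ ∃ t, (c : ℕ) = i + e * t := by
    intro i
    by_cases hi : (i : ℕ) < n - e
    · obtain ⟨c, hc⟩ := exists_cen e he i hi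
      exact ⟨c, fun _ => hc⟩
    · exact ⟨i, fun h => absurd h hi⟩
  choose c hc using hc
  have h1 := star_gen2 hnf hw J (fun i : Fin n => it H i b0) (fun i : Fin n => it H i b0)
    (first_inj hnf) (last_inj hnf)
    (Finset.univ.filter fun i : Fin n => (i : ℕ) < n - e) ∅ c c
    (fun i hi => (hc i (Finset.mem_filter.1 hi).2).1)
    (fun i hi => absurd hi (Finset.notMem_empty i))
    (fun i => it H J (it H i b0)) (fun i => it H J (it H i b0))
    (fun i _ => List.prefix_refl _)
    (fun i hi => by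
      obtain ⟨-, t, ht⟩ := hc i (Finset.mem_filter.1 hi).2
      rw [ht]
      exact pre_mul hP i t)
    (fun i hi => absurd hi (Finset.notMem_empty i))
    (fun i hi => absurd hi (Finset.notMem_empty i))
  rw [Finset.sum_empty, add_zero] at h1
  have h2 := sum_part hw J e
  have hJ : 0 < lam ^ J := pow_pos hw.lam_pos J
  have hl1 := hw.one_lt
  have h4 : lam ^ J * (lam ^ (n - e) - 1) < lam ^ J * ((lam - 1) * ∑ a, l a) := by
    have h5 := mul_le_mul_of_nonneg_right h1 (by linarith : (0 : ℝ) ≤ lam - 1)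
    rw [← h2]
    refine lt_of_le_of_lt h5 ?_
    have h6 : 0 < (lam - 1) * ∑ a, l a := mul_pos (by linarith) hS
    nlinarith
  exact lt_of_mul_lt_mul_left h4 hJ.le

end D0L.Star
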